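import Pool.Agent.U486.HF.Gen
import Mathlib.Analysis.InnerProductSpace.JointEigenspace
import Mathlib.Analysis.InnerProductSpace.Projection.FiniteDimensional

/-!
# Commuting skew-symmetric endomorphisms
-/

set_option autoImplicit false

namespace Pool.Agent.U486.HF

open Finset Module

theorem bivSum_cons {V : Type} [NormedAddCommGroup V] [InnerProductSpace ℝ V] {n : ℕ} (x₀ y₀ : V)
    (x y : Fin n → V) (c₀ : ℝ) (c : Fin n → ℝ) (u v : V) :
    bivSum (Fin.cons x₀ x : Fin (n + 1) → V) (Fin.cons y₀ y) (Fin.cons c₀ c) u v =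
      c₀ * biv x₀ y₀ u v + bivSum x y c u v := by
  simp only [bivSum, Fin.sum_univ_succ, Fin.cons_zero, Fin.cons_succ]

theorem comm_span (n : ℕ) : ∀ (V : Type) [NormedAddCommGroup V] [InnerProductSpace ℝ V]
    [FiniteDimensional ℝ V], finrank ℝ V ≤ 2 * n + 1 → ∀ (K : ℕ) (T : Fin K → V →ₗ[ℝ] V),
    (∀ k x y, inner ℝ (T k x) y = - inner ℝ x (T k y)) → (∀ k l x, T k (T l x) = T l (T k x)) →
    ∃ (x y : Fin n → V) (c : Fin K → Fin n → ℝ), ∀ k u v,
      inner ℝ (T k u) v = bivSum x y (c k) u v := by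
  induction n with
  | zero =>
    intro V _ _ _ hV K T hT _
    obtain ⟨w, hw⟩ := finrank_le_one_iff.mp hV
    refine ⟨Fin.elim0, Fin.elim0, fun _ => Fin.elim0, fun k u v => ?_⟩
    obtain ⟨a, rfl⟩ := hw u
    obtain ⟨b, rfl⟩ := hw v
    have h1 : inner ℝ (T k w) w = 0 := by
      have h2 := hT k w w
      rw [real_inner_comm] at h2
      have h3 : inner ℝ w (T k w) = inner ℝ (T k w) w := real_inner_comm _ _
      linarith
    rw [map_smul, inner_smul_left, inner_smul_right, h1]
    simp [bivSum]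
  | succ n ih =>
    intro V _ _ _ hV K T hT hC
    by_cases hall : ∀ k, T k = 0
    · refine ⟨0, 0, 0, fun k u v => ?_⟩
      rw [hall k]
      simp [bivSum]
    push Not at hall
    obtain ⟨k₀, hk₀⟩ := hall
    -- the symmetric operators
    set S : Fin K × Fin K → Module.End ℝ V := fun p => (T p.1 : Module.End ℝ V) * T p.2 with hS
    have hsym : ∀ p, (S p).IsSymmetric := by
      intro p x y
      show inner ℝ (T p.1 (T p.2 x)) y = inner ℝ x (T p.1 (T p.2 y))
      rw [hT, hT, neg_neg, hC p.2 p.1]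
    have hcom : Pairwise (Function.onFun Commute S) := by
      intro p q _
      show S p * S q = S q * S p
      ext x
      show T p.1 (T p.2 (T q.1 (T q.2 x))) = T q.1 (T q.2 (T p.1 (T p.2 x)))
      rw [hC p.2 q.1, hC p.1 q.1, hC p.2 q.2, hC p.1 q.2]
    have htop := LinearMap.IsSymmetric.iSup_iInf_eq_top_of_commute hsym hcom
    obtain ⟨χ, u, hu, huv⟩ : ∃ (χ : Fin K × Fin K → ℝ) (u : V),
        (∀ p, T p.1 (T p.2 u) = χ p • u) ∧ T k₀ u ≠ 0 := by
      by_contra hcon
      push Not at hcon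
      apply hk₀
      have h1 : (⊤ : Submodule ℝ V) ≤ LinearMap.ker (T k₀) := by
        rw [← htop]
        refine iSup_le fun χ => ?_
        intro u hu
        rw [LinearMap.mem_ker]
        refine hcon χ u fun p => ?_
        have h2 := (Submodule.mem_iInf _).mp hu p
        exact Module.End.mem_eigenspace_iff.mp h2
      ext x
      exact h1 Submodule.mem_top
    set v := T k₀ u with hv
    have hv0 : inner ℝ v v ≠ 0 := by
      rw [inner_self_ne_zero]
      exact huv
    have hu0 : inner ℝ u u ≠ 0 := by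
      rw [inner_self_ne_zero]
      rintro rfl
      apply huv
      rw [hv, map_zero]
    have huv0 : inner ℝ u v = 0 := by
      have h2 := hT k₀ u u
      rw [← hv] at h2
      have h3 : inner ℝ v u = inner ℝ u v := real_inner_comm _ _
      linarith
    have hvu0 : inner ℝ v u = 0 := by rw [real_inner_comm]; exact huv0
    have hlam : χ (k₀, k₀) * inner ℝ u u = - inner ℝ v v := by
      have h1 := hu (k₀, k₀)
      have h2 : inner ℝ (T k₀ (T k₀ u)) u = χ (k₀, k₀) * inner ℝ u u := by
        rw [h1, inner_smul_left]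
        rfl
      rw [← h2, hT, ← hv]
    have hlam0 : χ (k₀, k₀) ≠ 0 := by
      intro h
      rw [h, zero_mul] at hlam
      apply hv0
      linarith
    have hTv : ∀ l, T l v = χ (l, k₀) • u := fun l => hu (l, k₀)
    have hTu : ∀ l, T l u = (χ (l, k₀) / χ (k₀, k₀)) • v := by
      intro l
      have h1 : u = (χ (k₀, k₀))⁻¹ • T k₀ v := by
        rw [hTv, smul_smul, inv_mul_cancel₀ hlam0, one_smul]
      calc T l u = (χ (k₀, k₀))⁻¹ • T l (T k₀ v) := by
            conv_lhs => rw [h1, map_smul]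
        _ = (χ (k₀, k₀))⁻¹ • T k₀ (T l v) := by rw [hC]
        _ = _ := by
            rw [hTv, map_smul, smul_smul, ← hv]
            congr 1
            field_simp
    -- the orthogonal complement
    set Pl : Submodule ℝ V := Submodule.span ℝ {u, v} with hPl
    have huPl : u ∈ Pl := Submodule.subset_span (by simp)
    have hvPl : v ∈ Pl := Submodule.subset_span (by simp)
    have hfin : finrank ℝ Pl = 2 := by
      have h1 : LinearIndependent ℝ ![u, v] := by
        rw [LinearIndependent.pair_iff]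
        intro s t hst
        have h2 : inner ℝ u (s • u + t • v) = 0 := by rw [hst, inner_zero_right]
        have h3 : inner ℝ v (s • u + t • v) = 0 := by rw [hst, inner_zero_right]
        rw [inner_add_right, inner_smul_right, inner_smul_right, huv0, mul_zero, add_zero] at h2
        rw [inner_add_right, inner_smul_right, inner_smul_right, hvu0, mul_zero, zero_add] at h3
        exact ⟨(mul_eq_zero.mp h2).resolve_right hu0, (mul_eq_zero.mp h3).resolve_right hv0⟩
      have h2 := finrank_span_eq_card h1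
      have h3 : Set.range ![u, v] = {u, v} := by
        simp
        exact Set.pair_comm _ _
      rw [h3, Fintype.card_fin] at h2
      exact h2
    have hfinW : finrank ℝ Plᗮ ≤ 2 * n + 1 := by
      have := Submodule.finrank_add_finrank_orthogonal Pl
      omega
    have hW : ∀ l, ∀ w ∈ Plᗮ, T l w ∈ Plᗮ := by
      intro l w hw
      rw [Submodule.mem_orthogonal] at hw ⊢
      intro z hz
      obtain ⟨a, b, rfl⟩ := Submodule.mem_span_pair.mp hz
      have e1 : inner ℝ (a • u + b • v) (T l w) = - inner ℝ (T l (a • u + b • v)) w := by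
        rw [hT l (a • u + b • v) w, neg_neg]
      have e2 : T l (a • u + b • v) ∈ Pl := by
        rw [map_add, map_smul, map_smul, hTu, hTv]
        exact Pl.add_mem (Pl.smul_mem _ (Pl.smul_mem _ hvPl)) (Pl.smul_mem _ (Pl.smul_mem _ huPl))
      rw [e1, hw _ e2, neg_zero]
    obtain ⟨x', y', c', h'⟩ := ih Plᗮ hfinW K (fun l => (T l).restrict (hW l))
      (fun l x y => hT l x y) (fun k l x => Subtype.ext (hC k l x))
    refine ⟨Fin.cons u fun j => (x' j : V), Fin.cons v fun j => (y' j : V),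
      fun k => Fin.cons (χ (k, k₀) / χ (k₀, k₀) / inner ℝ u u) (c' k), fun k p q => ?_⟩
    rw [bivSum_cons]
    obtain ⟨p₁, hp₁, p₂, hp₂, rfl⟩ := Pl.exists_add_mem_mem_orthogonal p
    obtain ⟨q₁, hq₁, q₂, hq₂, rfl⟩ := Pl.exists_add_mem_mem_orthogonal q
    obtain ⟨a, b, rfl⟩ := Submodule.mem_span_pair.mp hp₁
    obtain ⟨a', b', rfl⟩ := Submodule.mem_span_pair.mp hq₁
    have z1 : ∀ w ∈ Plᗮ, inner ℝ u w = 0 := fun w hw => (Submodule.mem_orthogonal _ _).mp hw u huPl
    have z2 : ∀ w ∈ Plᗮ, inner ℝ v w = 0 := fun w hw => (Submodule.mem_orthogonal _ _).mp hw v hvPl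
    have z1' : ∀ w ∈ Plᗮ, inner ℝ w u = 0 := fun w hw => by rw [real_inner_comm]; exact z1 w hw
    have z2' : ∀ w ∈ Plᗮ, inner ℝ w v = 0 := fun w hw => by rw [real_inner_comm]; exact z2 w hw
    -- the part in the complement
    have e3 : bivSum (fun j => (x' j : V)) (fun j => (y' j : V)) (c' k)
        (a • u + b • v + p₂) (a' • u + b' • v + q₂) = inner ℝ (T k p₂) q₂ := by
      have h1 := h' k ⟨p₂, hp₂⟩ ⟨q₂, hq₂⟩
      have h2 : inner ℝ (((T k).restrict (hW k)) ⟨p₂, hp₂⟩) (⟨q₂, hq₂⟩ : Plᗮ) =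
          inner ℝ (T k p₂) q₂ := rfl
      rw [← h2, h1]
      simp only [bivSum, biv]
      refine Finset.sum_congr rfl fun j _ => ?_
      have i1 : ∀ (z : Plᗮ) (s t : ℝ) (w : V) (hw : w ∈ Plᗮ),
          inner ℝ (z : V) (s • u + t • v + w) = inner ℝ z (⟨w, hw⟩ : Plᗮ) := by
        intro z s t w hw
        rw [inner_add_right, inner_add_right, inner_smul_right, inner_smul_right, z1' z z.2,
          z2' z z.2]
        simp
      rw [i1 _ _ _ _ hp₂, i1 _ _ _ _ hp₂, i1 _ _ _ _ hq₂, i1 _ _ _ _ hq₂]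
    have e4 : biv u v (a • u + b • v + p₂) (a' • u + b' • v + q₂) =
        (a * b' - a' * b) * (inner ℝ u u * inner ℝ v v) := by
      simp only [biv, inner_add_right, inner_smul_right, huv0, hvu0, z1 _ hp₂, z1 _ hq₂, z2 _ hp₂,
        z2 _ hq₂]
      ring
    have e5 : inner ℝ (T k (a • u + b • v + p₂)) (a' • u + b' • v + q₂) =
        a * b' * (χ (k, k₀) / χ (k₀, k₀)) * inner ℝ v v + b * a' * χ (k, k₀) * inner ℝ u u +
          inner ℝ (T k p₂) q₂ := by
      rw [map_add, map_add, map_smul, map_smul, hTu, hTv]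
      simp only [inner_add_left, inner_add_right, inner_smul_left, inner_smul_right, huv0, hvu0,
        z1 _ hq₂, z2 _ hq₂, z1' _ (hW k _ hp₂), z2' _ (hW k _ hp₂), conj_trivial]
      ring
    rw [e3, e4, e5]
    have e6 : inner ℝ v v = - (χ (k₀, k₀) * inner ℝ u u) := by rw [hlam, neg_neg]
    rw [e6]
    field_simp
    ring

variable {V : Type} [NormedAddCommGroup V] [InnerProductSpace ℝ V]

theorem bivSum_pad {n n' : ℕ} (h : n ≤ n') {K : ℕ} (x y : Fin n → V) (c : Fin K → Fin n → ℝ) :
    ∃ (x' y' : Fin n' → V) (c' : Fin K → Fin n' → ℝ), ∀ k u v,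
      bivSum x y (c k) u v = bivSum x' y' (c' k) u v := by
  refine ⟨fun j => if hj : j.1 < n then x ⟨j.1, hj⟩ else 0,
    fun j => if hj : j.1 < n then y ⟨j.1, hj⟩ else 0,
    fun k j => if hj : j.1 < n then c k ⟨j.1, hj⟩ else 0, fun k u v => ?_⟩
  unfold bivSum
  refine Finset.sum_of_injOn (fun j : Fin n => Fin.castLE h j) ?_ (fun _ _ => by simp) ?_ ?_
  · intro i _ j _ hij
    exact Fin.castLE_injective h hij
  · intro j _ hj
    have h1 : ¬ j.1 < n := by
      intro hlt
      exact hj ⟨⟨j.1, hlt⟩, by simp, Fin.ext rfl⟩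
    simp [h1]
  · intro j _
    simp

open Pool.Agent.Y195.HF Pool.Agent.W669.HD

/-- commuting families in dimension at most eight -/
theorem comm_four {m : ℕ} (hm : m ≤ 4) (e : OrthonormalBasis (Fin m × Bool) ℝ V)
    {R : V → V → V → V → ℝ} {δ : ℝ} {K : ℕ} {T : Fin K → V →ₗ[ℝ] V}
    (hT : ∀ k x y, inner ℝ (T k x) y = - inner ℝ x (T k y))
    (hC : ∀ k l x, T k (T l x) = T l (T k x))
    (hn : OpNonneg (negT (addT (addT R fun u v w z => δ * unitT u v w z)
      fun u v w z => ∑ k, skewCurv (fun s t => inner ℝ (T k s) t) u v w z))) :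
    SpanPlus 4 δ R := by
  have hfd : FiniteDimensional ℝ V := e.toBasis.finiteDimensional_of_finite
  have hfin : finrank ℝ V ≤ 2 * m + 1 := by
    rw [finrank_eq_card_basis e.toBasis]
    simp
    omega
  obtain ⟨x, y, c, h⟩ := comm_span m V hfin K T hT hC
  obtain ⟨x', y', c', h'⟩ := bivSum_pad hm x y c
  refine ⟨x', y', K, c', ?_⟩
  have h1 : ∀ k, (fun s t => inner ℝ (T k s) t) = bivSum x' y' (c' k) := by
    intro k
    funext s t
    rw [h, h']
  simp only [h1] at hn
  exact hn

end Pool.Agent.U486.HF
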