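import Pool.Agent.U486.HF.Psd

/-!
# Skew forms in the span of four forms of rank two
-/

set_option autoImplicit false

namespace Pool.Agent.U486.HF

open Finset Pool.Agent.Y195.HF

section ring

variable {R : Type} [CommRing R]

theorem pow_six (y0 y1 y2 y3 : R) (h0 : y0 ^ 3 = 0) (h1 : y1 ^ 3 = 0) (h2 : y2 ^ 3 = 0)
    (h3 : y3 ^ 3 = 0) : (y0 + y1 + y2 + y3) ^ 6 =
      90 * y0 ^ 2 * y1 ^ 2 * y2 ^ 2 + 180 * y0 ^ 2 * y1 ^ 2 * y2 * y3
      + 90 * y0 ^ 2 * y1 ^ 2 * y3 ^ 2 + 180 * y0 ^ 2 * y1 * y2 ^ 2 * y3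
      + 180 * y0 ^ 2 * y1 * y2 * y3 ^ 2 + 90 * y0 ^ 2 * y2 ^ 2 * y3 ^ 2
      + 180 * y0 * y1 ^ 2 * y2 ^ 2 * y3 + 180 * y0 * y1 ^ 2 * y2 * y3 ^ 2
      + 180 * y0 * y1 * y2 ^ 2 * y3 ^ 2 + 90 * y1 ^ 2 * y2 ^ 2 * y3 ^ 2 := by
  linear_combination
    (y0 ^ 3 + 6 * y0 ^ 2 * y1 + 6 * y0 ^ 2 * y2 + 6 * y0 ^ 2 * y3 + 15 * y0 * y1 ^ 2
      + 30 * y0 * y1 * y2 + 30 * y0 * y1 * y3 + 15 * y0 * y2 ^ 2 + 30 * y0 * y2 * y3
      + 15 * y0 * y3 ^ 2 + 20 * y1 ^ 3 + 60 * y1 ^ 2 * y2 + 60 * y1 ^ 2 * y3 + 60 * y1 * y2 ^ 2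
      + 120 * y1 * y2 * y3 + 60 * y1 * y3 ^ 2 + 20 * y2 ^ 3 + 60 * y2 ^ 2 * y3
      + 60 * y2 * y3 ^ 2 + 20 * y3 ^ 3) * h0
    + (15 * y0 ^ 2 * y1 + 60 * y0 ^ 2 * y2 + 60 * y0 ^ 2 * y3 + 6 * y0 * y1 ^ 2
      + 30 * y0 * y1 * y2 + 30 * y0 * y1 * y3 + 60 * y0 * y2 ^ 2 + 120 * y0 * y2 * y3
      + 60 * y0 * y3 ^ 2 + y1 ^ 3 + 6 * y1 ^ 2 * y2 + 6 * y1 ^ 2 * y3 + 15 * y1 * y2 ^ 2
      + 30 * y1 * y2 * y3 + 15 * y1 * y3 ^ 2 + 20 * y2 ^ 3 + 60 * y2 ^ 2 * y3 + 60 * y2 * y3 ^ 2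
      + 20 * y3 ^ 3) * h1
    + (60 * y0 ^ 2 * y1 + 15 * y0 ^ 2 * y2 + 60 * y0 ^ 2 * y3 + 60 * y0 * y1 ^ 2
      + 30 * y0 * y1 * y2 + 120 * y0 * y1 * y3 + 6 * y0 * y2 ^ 2 + 30 * y0 * y2 * y3
      + 60 * y0 * y3 ^ 2 + 15 * y1 ^ 2 * y2 + 60 * y1 ^ 2 * y3 + 6 * y1 * y2 ^ 2
      + 30 * y1 * y2 * y3 + 60 * y1 * y3 ^ 2 + y2 ^ 3 + 6 * y2 ^ 2 * y3 + 15 * y2 * y3 ^ 2
      + 20 * y3 ^ 3) * h2
    + (60 * y0 ^ 2 * y1 + 60 * y0 ^ 2 * y2 + 15 * y0 ^ 2 * y3 + 60 * y0 * y1 ^ 2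
      + 120 * y0 * y1 * y2 + 30 * y0 * y1 * y3 + 60 * y0 * y2 ^ 2 + 30 * y0 * y2 * y3
      + 6 * y0 * y3 ^ 2 + 60 * y1 ^ 2 * y2 + 15 * y1 ^ 2 * y3 + 60 * y1 * y2 ^ 2
      + 30 * y1 * y2 * y3 + 6 * y1 * y3 ^ 2 + 15 * y2 ^ 2 * y3 + 6 * y2 * y3 ^ 2 + y3 ^ 3) * h3

theorem pow_eight (y0 y1 y2 y3 : R) (h0 : y0 ^ 3 = 0) (h1 : y1 ^ 3 = 0) (h2 : y2 ^ 3 = 0)
    (h3 : y3 ^ 3 = 0) : (y0 + y1 + y2 + y3) ^ 8 =
      2520 * y0 ^ 2 * y1 ^ 2 * y2 ^ 2 * y3 ^ 2 := by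
  have a5 : (y0 + y1) ^ 5 = 0 := by
    linear_combination (y0 ^ 2 + 5 * y0 * y1 + 10 * y1 ^ 2) * h0 +
      (10 * y0 ^ 2 + 5 * y0 * y1 + y1 ^ 2) * h1
  have b5 : (y2 + y3) ^ 5 = 0 := by
    linear_combination (y2 ^ 2 + 5 * y2 * y3 + 10 * y3 ^ 2) * h2 +
      (10 * y2 ^ 2 + 5 * y2 * y3 + y3 ^ 2) * h3
  have a4 : (y0 + y1) ^ 4 = 6 * y0 ^ 2 * y1 ^ 2 := by
    linear_combination (y0 + 4 * y1) * h0 + (4 * y0 + y1) * h1
  have b4 : (y2 + y3) ^ 4 = 6 * y2 ^ 2 * y3 ^ 2 := by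
    linear_combination (y2 + 4 * y3) * h2 + (4 * y2 + y3) * h3
  have h : y0 + y1 + y2 + y3 = (y0 + y1) + (y2 + y3) := by ring
  rw [h]
  generalize y0 + y1 = a at *
  generalize y2 + y3 = b at *
  have h8 : (a + b) ^ 8 = 70 * (a ^ 4 * b ^ 4) := by
    linear_combination (a ^ 3 + 8 * a ^ 2 * b + 28 * a * b ^ 2 + 56 * b ^ 3) * a5 +
      (56 * a ^ 3 + 28 * a ^ 2 * b + 8 * a * b ^ 2 + b ^ 3) * b5
  rw [h8, a4, b4]
  ring

theorem pow_nine (y0 y1 y2 y3 : R) (h0 : y0 ^ 3 = 0) (h1 : y1 ^ 3 = 0) (h2 : y2 ^ 3 = 0)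
    (h3 : y3 ^ 3 = 0) : (y0 + y1 + y2 + y3) ^ 9 = 0 := by
  rw [pow_succ, pow_eight y0 y1 y2 y3 h0 h1 h2 h3]
  linear_combination (2520 * y1 ^ 2 * y2 ^ 2 * y3 ^ 2) * h0 +
    (2520 * y0 ^ 2 * y2 ^ 2 * y3 ^ 2) * h1 + (2520 * y0 ^ 2 * y1 ^ 2 * y3 ^ 2) * h2 +
    (2520 * y0 ^ 2 * y1 ^ 2 * y2 ^ 2) * h3

end ring

section block

variable {m : ℕ}

/-- The relations satisfied by a real skew form of rank two. -/
structure Blk (A : Mt m) : Prop where
  skew : ∀ i j, A j i = - A i j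
  real : cj A = A
  pp : ff false false A * ff false false A = 0
  cc : ff true true A * ff true true A = 0
  pz : ff false false A * ff false true A = 0
  cz : ff true true A * ff false true A = 0
  zz : 2 * (ff false true A * ff false true A) = -(ff false false A * ff true true A)

/-- the linear map `bv _ v` -/
noncomputable def bvl {M : Type} [AddCommGroup M] [Module ℂ M] (v : M) : M →ₗ[ℂ] Zc M where
  toFun u := bv u v
  map_add' u u' := bv_add_left u u' v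
  map_smul' c u := bv_smul_left c u v

/-- the linear map `bv u _` -/
noncomputable def bvr {M : Type} [AddCommGroup M] [Module ℂ M] (u : M) : M →ₗ[ℂ] Zc M where
  toFun v := bv u v
  map_add' v v' := bv_add_right u v v'
  map_smul' c v := bv_smul_right c u v

/-- the vector with given coefficients -/
noncomputable def ve (s : Bool) (x : Fin m × Bool → ℝ) : I2 m → ℂ := ∑ i, (x i : ℂ) • th m s i

theorem bv_ve (s t : Bool) (x y : Fin m × Bool → ℝ) :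
    bv (ve s x) (ve t y) = ∑ i, ∑ j, ((x i : ℂ) * (y j : ℂ)) • bv (th m s i) (th m t j) := by
  have h1 : bv (ve s x) (ve t y) = bvl (ve t y) (∑ i, (x i : ℂ) • th m s i) := rfl
  rw [h1, map_sum]
  refine Finset.sum_congr rfl fun i _ => ?_
  rw [map_smul]
  have h2 : bvl (ve t y) (th m s i) = bvr (th m s i) (∑ j, (y j : ℂ) • th m t j) := rfl
  rw [h2, map_sum, Finset.smul_sum]
  refine Finset.sum_congr rfl fun j _ => ?_
  rw [map_smul, smul_smul]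
  rfl

/-- the matrix of a form of rank two -/
noncomputable def blk (x y : Fin m × Bool → ℝ) : Mt m :=
  fun i j => (x i : ℂ) * (y j : ℂ) - (y i : ℂ) * (x j : ℂ)

theorem ff_blk (s t : Bool) (x y : Fin m × Bool → ℝ) :
    ff s t (blk x y) = bv (ve s x) (ve t y) - bv (ve s y) (ve t x) := by
  rw [bv_ve, bv_ve, ff, ← Finset.sum_sub_distrib]
  refine Finset.sum_congr rfl fun i _ => ?_
  rw [← Finset.sum_sub_distrib]
  refine Finset.sum_congr rfl fun j _ => ?_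
  rw [← sub_smul]
  rfl

theorem Blk_blk (x y : Fin m × Bool → ℝ) : Blk (blk x y) := by
  have hp : ff false false (blk x y) = 2 * bv (ve false x) (ve false y) := by
    rw [ff_blk, bv_swap (ve false x) (ve false y)]
    ring
  have hc : ff true true (blk x y) = 2 * bv (ve true x) (ve true y) := by
    rw [ff_blk, bv_swap (ve true x) (ve true y)]
    ring
  have hz : ff false true (blk x y) =
    bv (ve false x) (ve true y) - bv (ve false y) (ve true x) := ff_blk _ _ _ _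
  have z0 : ∀ {u v w z : I2 m → ℂ}, ((u = w ∨ u = z) ∨ (v = w ∨ v = z)) →
    bv u v * bv w z = 0 := fun h => bv_mul_zero h
  refine ⟨?_, ?_, ?_, ?_, ?_, ?_, ?_⟩
  · intro i j
    simp only [blk]
    ring
  · funext i j
    simp only [cj, blk, map_sub, map_mul, Complex.conj_ofReal]
  · rw [hp]
    linear_combination (4 : Zc (I2 m → ℂ)) *
      z0 (u := ve false x) (v := ve false y) (w := ve false x) (z := ve false y)
        (Or.inl (Or.inl rfl))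
  · rw [hc]
    linear_combination (4 : Zc (I2 m → ℂ)) *
      z0 (u := ve true x) (v := ve true y) (w := ve true x) (z := ve true y)
        (Or.inl (Or.inl rfl))
  · rw [hp, hz]
    linear_combination (2 : Zc (I2 m → ℂ)) *
      z0 (u := ve false x) (v := ve false y) (w := ve false x) (z := ve true y)
        (Or.inl (Or.inl rfl)) - (2 : Zc (I2 m → ℂ)) *
      z0 (u := ve false x) (v := ve false y) (w := ve false y) (z := ve true x)
        (Or.inr (Or.inl rfl))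
  · rw [hc, hz]
    linear_combination (2 : Zc (I2 m → ℂ)) *
      z0 (u := ve true x) (v := ve true y) (w := ve false x) (z := ve true y)
        (Or.inr (Or.inr rfl)) - (2 : Zc (I2 m → ℂ)) *
      z0 (u := ve true x) (v := ve true y) (w := ve false y) (z := ve true x)
        (Or.inl (Or.inr rfl))
  · rw [hp, hc, hz]
    have h1 := z0 (u := ve false x) (v := ve true y) (w := ve false x) (z := ve true y)
        (Or.inl (Or.inl rfl))
    have h2 := z0 (u := ve false y) (v := ve true x) (w := ve false y) (z := ve true x)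
        (Or.inl (Or.inl rfl))
    have h3 := bv_exch (ve false x) (ve true y) (ve false y) (ve true x)
    rw [bv_swap (ve true x) (ve true y)] at h3
    linear_combination (2 : Zc (I2 m → ℂ)) * h1 + (2 : Zc (I2 m → ℂ)) * h2 -
      (4 : Zc (I2 m → ℂ)) * h3

variable {A B : Mt m} {T : Zc (I2 m → ℂ)}

theorem Blk.qi_eq (hA : Blk A) : 2 * qi A = 3 * (ff false false A * ff true true A) := by
  unfold qi
  linear_combination -hA.zz

theorem Blk.inv (hA : Blk A) : Inv (ff false false A * ff true true A) := by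
  have h : ff false false A * ff true true A = (2 / 3 : ℂ) • qi A := by
    have h2 : (3 : ℂ) • (ff false false A * ff true true A) = (2 : ℂ) • qi A := by
      simp only [Algebra.smul_def, map_ofNat]
      linear_combination -hA.qi_eq
    calc ff false false A * ff true true A
        = (1 / 3 : ℂ) • ((3 : ℂ) • (ff false false A * ff true true A)) := by
          rw [smul_smul]; norm_num
      _ = _ := by rw [h2, smul_smul]; norm_num
  rw [h]
  exact (qi_inv hA.skew).smul _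

theorem Blk.vv_sq (hA : Blk A) (p₁ p₂ p₃ : ℝ) : vv p₁ p₂ p₃ A ^ 2 =
    (((p₁ ^ 2 + p₂ ^ 2 + p₃ ^ 2) / 2 : ℝ) : ℂ) • (ff false false A * ff true true A) := by
  have hI : algebraMap ℂ (Zc (I2 m → ℂ)) Complex.I ^ 2 = -1 := by
    rw [← map_pow, Complex.I_sq, map_neg, map_one]
  have h2 : algebraMap ℂ (Zc (I2 m → ℂ)) (1 / 2) * 2 = 1 := by
    have : (2 : Zc (I2 m → ℂ)) = algebraMap ℂ (Zc (I2 m → ℂ)) 2 := (map_ofNat _ 2).symm
    rw [this, ← map_mul]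
    norm_num
  have e1 : ((p₁ : ℂ) + Complex.I * p₂) / 2 = (1 / 2) * (p₁ + Complex.I * p₂) := by ring
  have e2 : ((p₁ : ℂ) - Complex.I * p₂) / 2 = (1 / 2) * (p₁ - Complex.I * p₂) := by ring
  have e3 : (((p₁ ^ 2 + p₂ ^ 2 + p₃ ^ 2) / 2 : ℝ) : ℂ) =
      (1 / 2) * ((p₁ : ℂ) ^ 2 + (p₂ : ℂ) ^ 2 + (p₃ : ℂ) ^ 2) := by push_cast; ring
  rw [vv, uu, e1, e2, e3]
  simp only [Algebra.smul_def, map_mul, map_add, map_sub, map_pow]
  have hpp := hA.pp
  have hcc := hA.cc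
  have hpz := hA.pz
  have hcz := hA.cz
  have hzz := hA.zz
  generalize algebraMap ℂ (Zc (I2 m → ℂ)) (1 / 2) = h at *
  generalize algebraMap ℂ (Zc (I2 m → ℂ)) Complex.I = i at *
  generalize algebraMap ℂ (Zc (I2 m → ℂ)) (p₁ : ℂ) = a at *
  generalize algebraMap ℂ (Zc (I2 m → ℂ)) (p₂ : ℂ) = b at *
  generalize algebraMap ℂ (Zc (I2 m → ℂ)) (p₃ : ℂ) = c at *
  generalize ff false false A = x at *
  generalize ff true true A = y at *
  generalize ff false true A = z at *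
  linear_combination (h ^ 2 * (a + i * b) ^ 2) * hpp + (h ^ 2 * (a - i * b) ^ 2) * hcc +
    (2 * h * (a + i * b) * (i * c)) * hpz + (2 * h * (a - i * b) * (i * c)) * hcz +
    (-(2 * h ^ 2 * b ^ 2) * x * y + c ^ 2 * z * z) * hI + (-(h * c ^ 2)) * hzz +
    (c ^ 2 * z * z + h * (a ^ 2 + b ^ 2) * x * y) * h2

theorem Blk.vv_cube (hA : Blk A) (p₁ p₂ p₃ : ℝ) : vv p₁ p₂ p₃ A ^ 3 = 0 := by
  rw [pow_succ, hA.vv_sq]
  simp only [vv, uu, Algebra.smul_def]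
  have hpp := hA.pp
  have hcc := hA.cc
  have hcz := hA.cz
  generalize ff false false A = x at *
  generalize ff true true A = y at *
  generalize ff false true A = z at *
  generalize algebraMap ℂ (Zc (I2 m → ℂ)) (((p₁ ^ 2 + p₂ ^ 2 + p₃ ^ 2) / 2 : ℝ) : ℂ) = n
  generalize algebraMap ℂ (Zc (I2 m → ℂ)) (((p₁ : ℂ) + Complex.I * p₂) / 2) = a
  generalize algebraMap ℂ (Zc (I2 m → ℂ)) (((p₁ : ℂ) - Complex.I * p₂) / 2) = b
  generalize algebraMap ℂ (Zc (I2 m → ℂ)) (Complex.I * p₃) = c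
  linear_combination (n * a * y) * hpp + (n * b * x) * hcc + (n * c * x) * hcz

/-- the invariant pairing -/
theorem el_vv (hA : ∀ i j, A j i = - A i j) (hB : ∀ i j, B j i = - B i j) (hT : Inv T)
    (p₁ p₂ p₃ q₁ q₂ q₃ : ℝ) : el' T (vv p₁ p₂ p₃ A * vv q₁ q₂ q₃ B) =
      (((p₁ * q₁ + p₂ * q₂ + p₃ * q₃) / 2 : ℝ) : ℂ) *
        el' T (ff false false A * ff true true B) := by
  have w1 : el' T (ff false false A * ff false false B) = 0 :=
    tor hT (by norm_num) (tor_mul (tor_p hA) (tor_p hB))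
  have w2 : el' T (ff false false A * ff false true B) = 0 :=
    tor hT (by norm_num) (tor_mul (tor_p hA) (tor_z hB))
  have w3 : el' T (ff false true A * ff false false B) = 0 :=
    tor hT (by norm_num) (tor_mul (tor_z hA) (tor_p hB))
  have w4 : el' T (ff true true A * ff true true B) = 0 :=
    tor hT (by norm_num) (tor_mul (tor_c hA) (tor_c hB))
  have w5 : el' T (ff true true A * ff false true B) = 0 :=
    tor hT (by norm_num) (tor_mul (tor_c hA) (tor_z hB))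
  have w6 : el' T (ff false true A * ff true true B) = 0 :=
    tor hT (by norm_num) (tor_mul (tor_z hA) (tor_c hB))
  have r1 := rel_pz hA hB hT
  have r2 := rel_zp hA hB hT
  rw [vv, vv, uu, uu]
  simp only [add_mul, mul_add, smul_mul_smul_comm, map_add, map_smul, smul_eq_mul, w1, w2, w3, w4,
    w5, w6]
  have hI := Complex.I_sq
  push_cast
  linear_combination (((p₁ : ℂ) - Complex.I * p₂) / 2 * ((q₁ + Complex.I * q₂) / 2)) * (r2 - r1) +
    ((Complex.I * p₃) * (Complex.I * q₃) / 2) * r1 +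
    (-(p₂ * q₂ / 2 + p₃ * q₃ / 2) * el' T (ff false false A * ff true true B)) * hI

end block

end Pool.Agent.U486.HF
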