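import Pool.Agent.U486.HF.Six
import Pool.Agent.Y195.HF.Sharp

/-!
# Three skew forms in the span of five forms of rank two, in dimension six
-/

set_option autoImplicit false

namespace Pool.Agent.U486.HF

open Finset Pool.Agent.Y195.HF Pool.Agent.W666.GB Pool.Agent.W654.HD
open Pool.Agent.W669.HD hiding phi kap

/-- coordinates of the first vectors -/
def XZ (l : Fin 5) (i : Fin 3 × Bool) : ℤ :=
  (![![0, -1, -1, -1, 0, 1], ![0, 1, 1, 0, 0, 0], ![-1, 0, 1, 1, 0, -1], ![0, 0, 0, 0, 1, -1],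
    ![0, 0, 0, -1, 0, 1]] : Fin 5 → Fin 6 → ℤ) l
    (if i.2 then (Fin.natAdd 3 i.1 : Fin 6) else (Fin.castAdd 3 i.1 : Fin 6))

/-- coordinates of the second vectors -/
def YZ (l : Fin 5) (i : Fin 3 × Bool) : ℤ :=
  (![![1, -1, 0, -1, -1, 2], ![0, -1, 1, 0, -1, 1], ![1, 0, 1, 0, 0, 0], ![0, 1, 1, 0, -1, -1],
    ![-1, 0, -1, -1, 0, -1]] : Fin 5 → Fin 6 → ℤ) l
    (if i.2 then (Fin.natAdd 3 i.1 : Fin 6) else (Fin.castAdd 3 i.1 : Fin 6))

/-- twice the coefficients -/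
def CZ (s : Fin 3) (l : Fin 5) : ℤ :=
  (![![0, 1, 0, -1, 0], ![0, 0, 1, 0, -1], ![2, 1, 1, 1, 1]] : Fin 3 → Fin 5 → ℤ) s l

theorem al_span : ∀ (s : Fin 3) (i j : Fin 3 × Bool), 2 * alZ s i j =
    ∑ l, CZ s l * (XZ l i * YZ l j - XZ l j * YZ l i) := by decide +kernel

/-- the first vectors -/
noncomputable def xv (l : Fin 5) : E6 := WithLp.toLp 2 fun i => ((XZ l i : ℤ) : ℝ)

/-- the second vectors -/
noncomputable def yv (l : Fin 5) : E6 := WithLp.toLp 2 fun i => ((YZ l i : ℤ) : ℝ)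

/-- the coefficients -/
noncomputable def cv (s : Fin 3) (l : Fin 5) : ℝ := ((CZ s l : ℤ) : ℝ) / 2

theorem biv_coord (l : Fin 5) (u v : E6) : biv (xv l) (yv l) u v =
    ∑ i, ∑ j, (((XZ l i * YZ l j - XZ l j * YZ l i : ℤ) : ℝ)) * (u i * v j) := by
  have h1 : ∀ w : E6, inner ℝ (xv l) w = ∑ i, ((XZ l i : ℤ) : ℝ) * w i := by
    intro w
    rw [PiLp.inner_apply]
    exact Finset.sum_congr rfl fun i _ => by simp [xv, mul_comm]
  have h2 : ∀ w : E6, inner ℝ (yv l) w = ∑ i, ((YZ l i : ℤ) : ℝ) * w i := by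
    intro w
    rw [PiLp.inner_apply]
    exact Finset.sum_congr rfl fun i _ => by simp [yv, mul_comm]
  rw [biv, h1, h1, h2, h2]
  have h3 : (∑ i, ((XZ l i : ℤ) : ℝ) * v i) * ∑ i, ((YZ l i : ℤ) : ℝ) * u i =
      (∑ i, ((YZ l i : ℤ) : ℝ) * u i) * ∑ i, ((XZ l i : ℤ) : ℝ) * v i := mul_comm _ _
  rw [h3, Finset.sum_mul_sum, Finset.sum_mul_sum, ← Finset.sum_sub_distrib]
  refine Finset.sum_congr rfl fun i _ => ?_
  rw [← Finset.sum_sub_distrib]
  refine Finset.sum_congr rfl fun j _ => ?_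
  push_cast
  ring

theorem AA_span (s : Fin 3) (u v : E6) : bivSum xv yv (cv s) u v = AA s u v := by
  unfold bivSum AA
  simp only [biv_coord, Finset.mul_sum]
  rw [Finset.sum_comm]
  refine Finset.sum_congr rfl fun i _ => ?_
  rw [Finset.sum_comm]
  refine Finset.sum_congr rfl fun j _ => ?_
  have h := al_span s i j
  have h1 : (2 : ℝ) * al s i j = ∑ l, ((CZ s l : ℤ) : ℝ) *
      (((XZ l i * YZ l j - XZ l j * YZ l i : ℤ) : ℝ)) := by
    rw [al_cast]
    exact_mod_cast h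
  have h2 : al s i j = ∑ l, cv s l * (((XZ l i * YZ l j - XZ l j * YZ l i : ℤ) : ℝ)) := by
    have h3 : ∑ l, cv s l * (((XZ l i * YZ l j - XZ l j * YZ l i : ℤ) : ℝ)) =
        (∑ l, ((CZ s l : ℤ) : ℝ) * (((XZ l i * YZ l j - XZ l j * YZ l i : ℤ) : ℝ))) / 2 := by
      rw [Finset.sum_div]
      exact Finset.sum_congr rfl fun l _ => by simp only [cv]; ring
    rw [h3, ← h1]
    ring
  rw [h2, Finset.sum_mul]
  exact Finset.sum_congr rfl fun l _ => by ring

theorem five_fail : ∃ (x y : Fin 5 → E6) (c : Fin 3 → Fin 5 → ℝ),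
    ∀ e : OrthonormalBasis (Fin 3 × Bool) ℝ E6,
      (-1) ^ 3 * gbc e (fun u v w z => - ∑ k, skewCurv (bivSum x y (c k)) u v w z) < 0 := by
  refine ⟨xv, yv, cv, fun e => ?_⟩
  have hR : AlgCurv (addT (addT (RR 0) (RR 1)) (RR 2)) :=
    add_curv (add_curv (RR_curv 0) (RR_curv 1)) (RR_curv 2)
  have hS : (fun u v w z => - ∑ k, skewCurv (bivSum xv yv (cv k)) u v w z) =
      addT (addT (RR 0) (RR 1)) (RR 2) := by
    funext u v w z
    have h1 : ∀ s : Fin 3, skewCurv (bivSum xv yv (cv s)) u v w z =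
        skewCurv (AA s) u v w z := by
      intro s
      simp only [skewCurv, AA_span]
    simp only [h1, addT, RR_eq, Fin.sum_univ_three]
    ring
  rw [hS]
  set e₀ : OrthonormalBasis (Fin 3 × Bool) ℝ E6 := EuclideanSpace.basisFun _ ℝ with he₀
  rw [Pool.Agent.W688.HD.bas 3 E6 e e₀ _ hR, gbc_eq]
  have hπ := Real.pi_pos
  have hc : 0 < 1 / ((8 * Real.pi) ^ 3 * (Nat.factorial 3 : ℝ)) := by positivity
  refine mul_neg_of_pos_of_neg hc ?_
  have hcp : (fun _ : Fin 3 => cp e₀ (negT (addT (addT (RR 0) (RR 1)) (RR 2)))) =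
      fun _ : Fin 3 => (fun i j k l => Pool.Agent.W669.HD.pr 0 i j k l +
        Pool.Agent.W669.HD.pr 1 i j k l + Pool.Agent.W669.HD.pr 2 i j k l : T4 3) := by
    funext _ i j k l
    simp only [cp, negT, addT, RR, he₀, EuclideanSpace.basisFun_apply, AA_single,
      Pool.Agent.W669.HD.pr]
    ring
  rw [hcp]
  exact Pool.Agent.W654.HD.main

end Pool.Agent.U486.HF
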