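import Pool.Agent.U486.HF.Blocks

/-!
# Powers of the sum of the invariants of skew forms in the span of four forms of rank two
-/

set_option autoImplicit false

namespace Pool.Agent.U486.HF

open Finset Pool.Agent.Y195.HF

variable {m : ℕ}

/-- inner product of triples -/
def dd (p q : Fin 3 → ℝ) : ℝ := p 0 * q 0 + p 1 * q 1 + p 2 * q 2

/-- the linear form of a triple -/
noncomputable def yy (p : Fin 3 → ℝ) (A : Mt m) : Zc (I2 m → ℂ) := vv (p 0) (p 1) (p 2) A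

/-- the product of the two outer elements -/
noncomputable def wq (A : Mt m) : Zc (I2 m → ℂ) := ff false false A * ff true true A

theorem yy_sq {A : Mt m} (hA : Blk A) (p : Fin 3 → ℝ) :
    yy p A ^ 2 = ((dd p p / 2 : ℝ) : ℂ) • wq A := by
  rw [yy, hA.vv_sq, wq]
  congr 3
  simp only [dd]
  ring

theorem yy_cube {A : Mt m} (hA : Blk A) (p : Fin 3 → ℝ) : yy p A ^ 3 = 0 := hA.vv_cube _ _ _

theorem exists_unit (Q : Fin 3 → ℝ) : ∃ (r : ℝ) (e : Fin 3 → ℝ), (∀ α, Q α = r * e α) ∧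
    dd e e = 1 := by
  by_cases h : dd Q Q = 0
  · refine ⟨0, fun α => if α = 0 then 1 else 0, fun α => ?_, by simp [dd]⟩
    have h0 : Q 0 = 0 := by
      unfold dd at h
      nlinarith [sq_nonneg (Q 0), sq_nonneg (Q 1), sq_nonneg (Q 2)]
    have h1 : Q 1 = 0 := by
      unfold dd at h
      nlinarith [sq_nonneg (Q 0), sq_nonneg (Q 1), sq_nonneg (Q 2)]
    have h2 : Q 2 = 0 := by
      unfold dd at h
      nlinarith [sq_nonneg (Q 0), sq_nonneg (Q 1), sq_nonneg (Q 2)]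
    rw [zero_mul]
    fin_cases α
    · exact h0
    · exact h1
    · exact h2
  · have hpos : 0 < dd Q Q := by
      refine lt_of_le_of_ne ?_ (Ne.symm h)
      unfold dd
      nlinarith [mul_self_nonneg (Q 0), mul_self_nonneg (Q 1), mul_self_nonneg (Q 2)]
    have hr : Real.sqrt (dd Q Q) ≠ 0 := (Real.sqrt_pos.mpr hpos).ne'
    have hr2 : Real.sqrt (dd Q Q) * Real.sqrt (dd Q Q) = dd Q Q := Real.mul_self_sqrt hpos.le
    refine ⟨Real.sqrt (dd Q Q), fun α => Q α / Real.sqrt (dd Q Q), fun α => ?_, ?_⟩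
    · field_simp
    · have e1 : dd (fun α => Q α / Real.sqrt (dd Q Q)) (fun α => Q α / Real.sqrt (dd Q Q)) =
          dd Q Q / (Real.sqrt (dd Q Q) * Real.sqrt (dd Q Q)) := by
        simp only [dd]
        field_simp
      rw [e1, hr2, div_self h]

section values

variable {A B C D : Mt m} {T : Zc (I2 m → ℂ)}

theorem trip_val (hA : Blk A) (hB : Blk B) (hC : Blk C) (p q r : Fin 3 → ℝ) :
    el' T (yy p A ^ 2 * yy q B ^ 2 * yy r C ^ 2) =
      ((dd p p * dd q q * dd r r / 8 : ℝ) : ℂ) * el' T (wq A * wq B * wq C) := by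
  rw [yy_sq hA, yy_sq hB, yy_sq hC, smul_mul_smul_comm, smul_mul_smul_comm, map_smul, smul_eq_mul]
  congr 1
  push_cast
  ring

theorem pair_val (hA : Blk A) (hB : Blk B) (hC : Blk C) (hD : Blk D) (hT : Inv T)
    (p q r s : Fin 3 → ℝ) :
    el' T (yy p A * yy q B * (yy r C ^ 2 * yy s D ^ 2)) =
      ((dd p q * dd r r * dd s s / 8 : ℝ) : ℂ) *
        el' T (ff false false A * ff true true B * (wq C * wq D)) := by
  have h1 : yy p A * yy q B * (yy r C ^ 2 * yy s D ^ 2) =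
      ((dd r r * dd s s / 4 : ℝ) : ℂ) • (yy p A * yy q B * (wq C * wq D)) := by
    rw [yy_sq hC, yy_sq hD, smul_mul_smul_comm, mul_smul_comm]
    congr 1
    push_cast
    ring
  have hI : Inv (wq C * wq D * T) := (hC.inv.mul hD.inv).mul hT
  have h2 := el_vv hA.skew hB.skew hI (p 0) (p 1) (p 2) (q 0) (q 1) (q 2)
  have h3 : ∀ x, el' T (x * (wq C * wq D)) = el' (wq C * wq D * T) x :=
    fun x => (el'_mul T (wq C * wq D) x).symm
  rw [h1, map_smul, smul_eq_mul, h3, h3, yy, yy, h2, ← mul_assoc]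
  congr 1
  simp only [dd]
  push_cast
  ring

theorem pair_symm (hA : Blk A) (hB : Blk B) (hC : Blk C) (hD : Blk D) (hT : Inv T) :
    el' T (ff false false A * ff true true B * (wq C * wq D)) =
      el' T (ff false false B * ff true true A * (wq C * wq D)) := by
  have hI : Inv (wq C * wq D * T) := (hC.inv.mul hD.inv).mul hT
  have h3 : ∀ x, el' T (x * (wq C * wq D)) = el' (wq C * wq D * T) x :=
    fun x => (el'_mul T (wq C * wq D) x).symm
  rw [h3, h3]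
  have r1 := rel_pz hA.skew hB.skew hI
  have r2 := rel_zp hA.skew hB.skew hI
  rw [mul_comm (ff true true A)] at r2
  linear_combination r1 - r2

theorem el_num (k : ℕ) (x : Zc (I2 m → ℂ)) : el' T ((k : Zc (I2 m → ℂ)) * x) = k * el' T x := by
  rw [← nsmul_eq_mul, map_nsmul, nsmul_eq_mul]

end values

section three

/-- a product of three elements -/
noncomputable def pr3 (s : Bool) (A : Fin 4 → Mt m) (a : Fin 4) : Zc (I2 m → ℂ) :=
  ∏ b : Fin 3, ff s s (A (a.succAbove b))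

variable {A : Fin 4 → Mt m} {T : Zc (I2 m → ℂ)}

theorem pr3_0 (s : Bool) : pr3 s A 0 = ff s s (A 1) * ff s s (A 2) * ff s s (A 3) := by
  rw [pr3, Fin.prod_univ_three]; rfl

theorem pr3_1 (s : Bool) : pr3 s A 1 = ff s s (A 0) * ff s s (A 2) * ff s s (A 3) := by
  rw [pr3, Fin.prod_univ_three]; rfl

theorem pr3_2 (s : Bool) : pr3 s A 2 = ff s s (A 0) * ff s s (A 1) * ff s s (A 3) := by
  rw [pr3, Fin.prod_univ_three]; rfl

theorem pr3_3 (s : Bool) : pr3 s A 3 = ff s s (A 0) * ff s s (A 1) * ff s s (A 2) := by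
  rw [pr3, Fin.prod_univ_three]; rfl

theorem psd3 (hA : ∀ j, Blk (A j)) {n : ℕ} (hTc : T ∈ cone m n) (hN : 3 + n = m)
    (z : Fin 4 → ℝ) : ∃ r : ℝ, 0 ≤ r ∧
      ∑ a, ∑ b, ((z a * z b : ℝ) : ℂ) * el' T (pr3 false A a * pr3 true A b) = (r : ℂ) := by
  obtain ⟨r, hr, hr'⟩ := psd (ι := Fin 4) (fun a => (z a : ℂ)) (fun a b => A (a.succAbove b))
    hTc hN
  refine ⟨r, hr, ?_⟩
  have h1 : (∑ i : Fin 4, (z i : ℂ) • ∏ b : Fin 3, ff false false (A (i.succAbove b))) *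
      (∑ i : Fin 4, (starRingEnd ℂ) (z i : ℂ) • ∏ b : Fin 3, ff true true
        (cj (A (i.succAbove b)))) =
      ∑ a, ∑ b, ((z a * z b : ℝ) : ℂ) • (pr3 false A a * pr3 true A b) := by
    rw [Finset.sum_mul_sum]
    refine Finset.sum_congr rfl fun a _ => Finset.sum_congr rfl fun b _ => ?_
    have e1 : ∏ c : Fin 3, ff true true (cj (A (b.succAbove c))) = pr3 true A b := by
      rw [pr3]
      exact Finset.prod_congr rfl fun c _ => by rw [(hA _).real]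
    rw [e1, Complex.conj_ofReal, smul_mul_smul_comm]
    push_cast
    rfl
  rw [← hr', h1, ← el'_apply, map_sum]
  refine Finset.sum_congr rfl fun a _ => ?_
  rw [map_sum]
  refine Finset.sum_congr rfl fun b _ => ?_
  rw [map_smul, smul_eq_mul]

theorem claim3 (hA : ∀ j, Blk (A j)) (hT : Inv T) {n : ℕ} (hTc : T ∈ cone m n) (hN : 3 + n = m)
    (Q : Fin 4 → Fin 3 → ℝ) : ∃ r : ℝ, 0 ≤ r ∧
      el' T ((yy (Q 0) (A 0) + yy (Q 1) (A 1) + yy (Q 2) (A 2) + yy (Q 3) (A 3)) ^ 6) =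
        (r : ℂ) := by
  choose ρ e he hu using fun j => exists_unit (Q j)
  have hdd : ∀ a b, dd (Q a) (Q b) = ρ a * ρ b * dd (e a) (e b) := by
    intro a b
    simp only [dd, he]
    ring
  obtain ⟨s, hs⟩ : ∃ s : Fin 4 → ℝ, s = ![ρ 1 * ρ 2 * ρ 3, ρ 0 * ρ 2 * ρ 3, ρ 0 * ρ 1 * ρ 3,
    ρ 0 * ρ 1 * ρ 2] := ⟨_, rfl⟩
  have s0 : s 0 = ρ 1 * ρ 2 * ρ 3 := by rw [hs]; rfl
  have s1 : s 1 = ρ 0 * ρ 2 * ρ 3 := by rw [hs]; rfl
  have s2 : s 2 = ρ 0 * ρ 1 * ρ 3 := by rw [hs]; rfl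
  have s3 : s 3 = ρ 0 * ρ 1 * ρ 2 := by rw [hs]; rfl
  choose r hr hr' using fun α : Fin 3 => psd3 hA hTc hN (fun a => s a * e a α)
  refine ⟨45 / 4 * ∑ α, r α, by
    have := Finset.sum_nonneg (s := univ) fun α _ => hr α
    positivity, ?_⟩
  -- the left-hand side
  rw [pow_six _ _ _ _ (yy_cube (hA 0) _) (yy_cube (hA 1) _) (yy_cube (hA 2) _)
    (yy_cube (hA 3) _)]
  set y0 := yy (Q 0) (A 0) with hy0
  set y1 := yy (Q 1) (A 1) with hy1
  set y2 := yy (Q 2) (A 2) with hy2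
  set y3 := yy (Q 3) (A 3) with hy3
  have hL : 90 * y0 ^ 2 * y1 ^ 2 * y2 ^ 2 + 180 * y0 ^ 2 * y1 ^ 2 * y2 * y3
      + 90 * y0 ^ 2 * y1 ^ 2 * y3 ^ 2 + 180 * y0 ^ 2 * y1 * y2 ^ 2 * y3
      + 180 * y0 ^ 2 * y1 * y2 * y3 ^ 2 + 90 * y0 ^ 2 * y2 ^ 2 * y3 ^ 2
      + 180 * y0 * y1 ^ 2 * y2 ^ 2 * y3 + 180 * y0 * y1 ^ 2 * y2 * y3 ^ 2
      + 180 * y0 * y1 * y2 ^ 2 * y3 ^ 2 + 90 * y1 ^ 2 * y2 ^ 2 * y3 ^ 2 =
      ((90 : ℕ) : Zc (I2 m → ℂ)) * ((y0 ^ 2 * y1 ^ 2 * y2 ^ 2 + y0 ^ 2 * y1 ^ 2 * y3 ^ 2 +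
        y0 ^ 2 * y2 ^ 2 * y3 ^ 2 + y1 ^ 2 * y2 ^ 2 * y3 ^ 2)) +
      ((180 : ℕ) : Zc (I2 m → ℂ)) * ((y0 * y1 * (y2 ^ 2 * y3 ^ 2) +
        y0 * y2 * (y1 ^ 2 * y3 ^ 2) + y0 * y3 * (y1 ^ 2 * y2 ^ 2) +
        y1 * y2 * (y0 ^ 2 * y3 ^ 2) + y1 * y3 * (y0 ^ 2 * y2 ^ 2) +
        y2 * y3 * (y0 ^ 2 * y1 ^ 2))) := by
    push_cast
    ring
  rw [hL, map_add, el_num, el_num]
  simp only [map_add]
  rw [hy0, hy1, hy2, hy3]
  rw [trip_val (hA 0) (hA 1) (hA 2), trip_val (hA 0) (hA 1) (hA 3), trip_val (hA 0) (hA 2) (hA 3),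
    trip_val (hA 1) (hA 2) (hA 3),
    pair_val (hA 0) (hA 1) (hA 2) (hA 3) hT, pair_val (hA 0) (hA 2) (hA 1) (hA 3) hT,
    pair_val (hA 0) (hA 3) (hA 1) (hA 2) hT, pair_val (hA 1) (hA 2) (hA 0) (hA 3) hT,
    pair_val (hA 1) (hA 3) (hA 0) (hA 2) hT, pair_val (hA 2) (hA 3) (hA 0) (hA 1) hT]
  -- the entries
  have g00 : el' T (pr3 false A 0 * pr3 true A 0) = el' T (wq (A 1) * wq (A 2) * wq (A 3)) := by
    congr 1; rw [pr3_0, pr3_0]; simp only [wq]; ring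
  have g11 : el' T (pr3 false A 1 * pr3 true A 1) = el' T (wq (A 0) * wq (A 2) * wq (A 3)) := by
    congr 1; rw [pr3_1, pr3_1]; simp only [wq]; ring
  have g22 : el' T (pr3 false A 2 * pr3 true A 2) = el' T (wq (A 0) * wq (A 1) * wq (A 3)) := by
    congr 1; rw [pr3_2, pr3_2]; simp only [wq]; ring
  have g33 : el' T (pr3 false A 3 * pr3 true A 3) = el' T (wq (A 0) * wq (A 1) * wq (A 2)) := by
    congr 1; rw [pr3_3, pr3_3]; simp only [wq]; ring
  have g10 : el' T (pr3 false A 1 * pr3 true A 0) =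
      el' T (ff false false (A 0) * ff true true (A 1) * (wq (A 2) * wq (A 3))) := by
    congr 1; rw [pr3_0, pr3_1]; simp only [wq]; ring
  have g01 : el' T (pr3 false A 0 * pr3 true A 1) =
      el' T (ff false false (A 0) * ff true true (A 1) * (wq (A 2) * wq (A 3))) := by
    rw [pair_symm (hA 0) (hA 1) (hA 2) (hA 3) hT]
    congr 1; rw [pr3_0, pr3_1]; simp only [wq]; ring
  have g20 : el' T (pr3 false A 2 * pr3 true A 0) =
      el' T (ff false false (A 0) * ff true true (A 2) * (wq (A 1) * wq (A 3))) := by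
    congr 1; rw [pr3_0, pr3_2]; simp only [wq]; ring
  have g02 : el' T (pr3 false A 0 * pr3 true A 2) =
      el' T (ff false false (A 0) * ff true true (A 2) * (wq (A 1) * wq (A 3))) := by
    rw [pair_symm (hA 0) (hA 2) (hA 1) (hA 3) hT]
    congr 1; rw [pr3_0, pr3_2]; simp only [wq]; ring
  have g30 : el' T (pr3 false A 3 * pr3 true A 0) =
      el' T (ff false false (A 0) * ff true true (A 3) * (wq (A 1) * wq (A 2))) := by
    congr 1; rw [pr3_0, pr3_3]; simp only [wq]; ring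
  have g03 : el' T (pr3 false A 0 * pr3 true A 3) =
      el' T (ff false false (A 0) * ff true true (A 3) * (wq (A 1) * wq (A 2))) := by
    rw [pair_symm (hA 0) (hA 3) (hA 1) (hA 2) hT]
    congr 1; rw [pr3_0, pr3_3]; simp only [wq]; ring
  have g21 : el' T (pr3 false A 2 * pr3 true A 1) =
      el' T (ff false false (A 1) * ff true true (A 2) * (wq (A 0) * wq (A 3))) := by
    congr 1; rw [pr3_1, pr3_2]; simp only [wq]; ring
  have g12 : el' T (pr3 false A 1 * pr3 true A 2) =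
      el' T (ff false false (A 1) * ff true true (A 2) * (wq (A 0) * wq (A 3))) := by
    rw [pair_symm (hA 1) (hA 2) (hA 0) (hA 3) hT]
    congr 1; rw [pr3_1, pr3_2]; simp only [wq]; ring
  have g31 : el' T (pr3 false A 3 * pr3 true A 1) =
      el' T (ff false false (A 1) * ff true true (A 3) * (wq (A 0) * wq (A 2))) := by
    congr 1; rw [pr3_1, pr3_3]; simp only [wq]; ring
  have g13 : el' T (pr3 false A 1 * pr3 true A 3) =
      el' T (ff false false (A 1) * ff true true (A 3) * (wq (A 0) * wq (A 2))) := by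
    rw [pair_symm (hA 1) (hA 3) (hA 0) (hA 2) hT]
    congr 1; rw [pr3_1, pr3_3]; simp only [wq]; ring
  have g32 : el' T (pr3 false A 3 * pr3 true A 2) =
      el' T (ff false false (A 2) * ff true true (A 3) * (wq (A 0) * wq (A 1))) := by
    congr 1; rw [pr3_2, pr3_3]; simp only [wq]; ring
  have g23 : el' T (pr3 false A 2 * pr3 true A 3) =
      el' T (ff false false (A 2) * ff true true (A 3) * (wq (A 0) * wq (A 1))) := by
    rw [pair_symm (hA 2) (hA 3) (hA 0) (hA 1) hT]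
    congr 1; rw [pr3_2, pr3_3]; simp only [wq]; ring
  simp only [Fin.sum_univ_four, g00, g11, g22, g33, g01, g10, g02, g20, g03, g30, g12, g21, g13,
    g31, g23, g32, s0, s1, s2, s3] at hr'
  have q0 := hr' 0
  have q1 := hr' 1
  have q2 := hr' 2
  have u0 := hu 0
  have u1 := hu 1
  have u2 := hu 2
  have u3 := hu 3
  rw [Fin.sum_univ_three]
  push_cast
  rw [← q0, ← q1, ← q2]
  simp only [hdd]
  have d00 : dd (e 0) (e 0) = 1 := hu 0
  have d11 : dd (e 1) (e 1) = 1 := hu 1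
  have d22 : dd (e 2) (e 2) = 1 := hu 2
  have d33 : dd (e 3) (e 3) = 1 := hu 3
  have c0 : ((e 0 0 : ℝ) : ℂ) ^ 2 + ((e 0 1 : ℝ) : ℂ) ^ 2 + ((e 0 2 : ℝ) : ℂ) ^ 2 = 1 := by
    have : e 0 0 ^ 2 + e 0 1 ^ 2 + e 0 2 ^ 2 = 1 := by rw [← d00]; simp only [dd]; ring
    exact_mod_cast this
  have c1 : ((e 1 0 : ℝ) : ℂ) ^ 2 + ((e 1 1 : ℝ) : ℂ) ^ 2 + ((e 1 2 : ℝ) : ℂ) ^ 2 = 1 := by
    have : e 1 0 ^ 2 + e 1 1 ^ 2 + e 1 2 ^ 2 = 1 := by rw [← d11]; simp only [dd]; ring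
    exact_mod_cast this
  have c2 : ((e 2 0 : ℝ) : ℂ) ^ 2 + ((e 2 1 : ℝ) : ℂ) ^ 2 + ((e 2 2 : ℝ) : ℂ) ^ 2 = 1 := by
    have : e 2 0 ^ 2 + e 2 1 ^ 2 + e 2 2 ^ 2 = 1 := by rw [← d22]; simp only [dd]; ring
    exact_mod_cast this
  have c3 : ((e 3 0 : ℝ) : ℂ) ^ 2 + ((e 3 1 : ℝ) : ℂ) ^ 2 + ((e 3 2 : ℝ) : ℂ) ^ 2 = 1 := by
    have : e 3 0 ^ 2 + e 3 1 ^ 2 + e 3 2 ^ 2 = 1 := by rw [← d33]; simp only [dd]; ring
    exact_mod_cast this
  simp only [d00, d11, d22, d33]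
  simp only [dd]
  push_cast
  generalize el' T (wq (A 1) * wq (A 2) * wq (A 3)) = x00
  generalize el' T (wq (A 0) * wq (A 2) * wq (A 3)) = x11
  generalize el' T (wq (A 0) * wq (A 1) * wq (A 3)) = x22
  generalize el' T (wq (A 0) * wq (A 1) * wq (A 2)) = x33
  generalize el' T (ff false false (A 0) * ff true true (A 1) * (wq (A 2) * wq (A 3))) = x01
  generalize el' T (ff false false (A 0) * ff true true (A 2) * (wq (A 1) * wq (A 3))) = x02
  generalize el' T (ff false false (A 0) * ff true true (A 3) * (wq (A 1) * wq (A 2))) = x03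
  generalize el' T (ff false false (A 1) * ff true true (A 2) * (wq (A 0) * wq (A 3))) = x12
  generalize el' T (ff false false (A 1) * ff true true (A 3) * (wq (A 0) * wq (A 2))) = x13
  generalize el' T (ff false false (A 2) * ff true true (A 3) * (wq (A 0) * wq (A 1))) = x23
  clear_value y0 y1 y2 y3
  generalize ((ρ 0 : ℝ) : ℂ) = r0 at *
  generalize ((ρ 1 : ℝ) : ℂ) = r1 at *
  generalize ((ρ 2 : ℝ) : ℂ) = r2 at *
  generalize ((ρ 3 : ℝ) : ℂ) = r3 at *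
  linear_combination (-(45 / 4) * (r1 * r2 * r3) ^ 2 * x00) * c0 +
    (-(45 / 4) * (r0 * r2 * r3) ^ 2 * x11) * c1 + (-(45 / 4) * (r0 * r1 * r3) ^ 2 * x22) * c2 +
    (-(45 / 4) * (r0 * r1 * r2) ^ 2 * x33) * c3

end three

end Pool.Agent.U486.HF
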