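import Pool.Agent.U486.HF.GenA

/-!
# The vector forms
-/

set_option autoImplicit false

namespace Pool.Agent.U486.HF

open Finset Pool.Agent.Y195.HF Pool.Agent.W666.GB Pool.Agent.W669.HD

variable {m : ℕ}

section vec

variable {V : Type} [NormedAddCommGroup V] [InnerProductSpace ℝ V]

/-- the skew form `x ∧ y` of rank at most two -/
noncomputable def biv (x y s t : V) : ℝ := inner ℝ x s * inner ℝ y t - inner ℝ x t * inner ℝ y s

/-- the linear combination of the skew forms `x j ∧ y j` with the coefficients `c j` -/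
noncomputable def bivSum {n : ℕ} (x y : Fin n → V) (c : Fin n → ℝ) (s t : V) : ℝ :=
  ∑ j, c j * biv (x j) (y j) s t

theorem bivSum_skew {n : ℕ} (x y : Fin n → V) (c : Fin n → ℝ) : SkewForm (bivSum x y c) where
  add s s' t := by
    simp only [bivSum, biv, inner_add_right, ← Finset.sum_add_distrib]
    exact Finset.sum_congr rfl fun j _ => by ring
  smul r s t := by
    simp only [bivSum, biv, inner_smul_right, Finset.mul_sum]
    exact Finset.sum_congr rfl fun j _ => by ring
  anti s t := by
    simp only [bivSum, biv, ← Finset.sum_neg_distrib]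
    exact Finset.sum_congr rfl fun j _ => by ring

/-- The hypothesis: `-R = P + ∑ skewCurv (A k)`, where the curvature operator of the
algebraic curvature tensor `P` is at least `δ` and the skew forms `A k` lie in the span of `n`
skew forms of rank at most two. -/
def SpanPlus (n : ℕ) (δ : ℝ) (R : V → V → V → V → ℝ) : Prop :=
  ∃ (x y : Fin n → V) (K : ℕ) (c : Fin K → Fin n → ℝ),
    OpNonneg (negT (addT (addT R fun u v w z => δ * unitT u v w z)
      fun u v w z => ∑ k, skewCurv (bivSum x y (c k)) u v w z))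

theorem skewCurv_bivSum {n : ℕ} (x y : Fin n → V) (c : Fin n → ℝ) (u v w z : V) :
    skewCurv (bivSum x y c) u v w z = ∑ i, ∑ j, c i * c j *
      (2 * (biv (x i) (y i) u v * biv (x j) (y j) w z) +
        biv (x i) (y i) u w * biv (x j) (y j) v z -
        biv (x i) (y i) u z * biv (x j) (y j) v w) := by
  simp only [skewCurv, bivSum]
  rw [Finset.sum_mul_sum, Finset.sum_mul_sum, Finset.sum_mul_sum, Finset.mul_sum,
    ← Finset.sum_add_distrib, ← Finset.sum_sub_distrib]
  refine Finset.sum_congr rfl fun i _ => ?_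
  rw [Finset.mul_sum, ← Finset.sum_add_distrib, ← Finset.sum_sub_distrib]
  exact Finset.sum_congr rfl fun j _ => by ring

/-- any number of forms in the span may be replaced by `n` ones -/
theorem reduce {n K : ℕ} (x y : Fin n → V) (c : Fin K → Fin n → ℝ) :
    ∃ c' : Fin n → Fin n → ℝ, ∀ u v w z, ∑ k, skewCurv (bivSum x y (c k)) u v w z =
      ∑ k, skewCurv (bivSum x y (c' k)) u v w z := by
  obtain ⟨B, hB⟩ := sq_real (J := Fin n) (Matrix.of fun i j => ∑ k, c k i * c k j)
    (fun p q => by
      simp only [Matrix.of_apply]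
      exact Finset.sum_congr rfl fun k _ => mul_comm _ _)
    (fun t => by
      have h0 : ∀ k, (∑ p, c k p * t p) ^ 2 = ∑ p, ∑ q, (c k p * c k q) * (t p * t q) := by
        intro k
        rw [sq, Finset.sum_mul_sum]
        exact Finset.sum_congr rfl fun p _ => Finset.sum_congr rfl fun q _ => by ring
      have h1 : ∑ p, ∑ q, (Matrix.of fun i j => ∑ k, c k i * c k j) p q * (t p * t q) =
          ∑ k, (∑ p, c k p * t p) ^ 2 := by
        simp only [h0]
        symm
        rw [Finset.sum_comm]
        refine Finset.sum_congr rfl fun p _ => ?_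
        rw [Finset.sum_comm]
        refine Finset.sum_congr rfl fun q _ => ?_
        rw [Matrix.of_apply, Finset.sum_mul]
      rw [h1]
      exact Finset.sum_nonneg fun k _ => sq_nonneg _)
  refine ⟨fun a => B a, fun u v w z => ?_⟩
  have h2 : ∀ (K : ℕ) (d : Fin K → Fin n → ℝ), ∑ k, skewCurv (bivSum x y (d k)) u v w z =
      ∑ i, ∑ j, (∑ k, d k i * d k j) * (2 * (biv (x i) (y i) u v * biv (x j) (y j) w z) +
        biv (x i) (y i) u w * biv (x j) (y j) v z -
        biv (x i) (y i) u z * biv (x j) (y j) v w) := by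
    intro K d
    simp only [skewCurv_bivSum, Finset.sum_mul]
    rw [Finset.sum_comm]
    refine Finset.sum_congr rfl fun i _ => ?_
    rw [Finset.sum_comm]
  rw [h2, h2]
  refine Finset.sum_congr rfl fun i _ => Finset.sum_congr rfl fun j _ => ?_
  congr 1
  exact hB i j

theorem cm_bivSum (e : OrthonormalBasis (Fin m × Bool) ℝ V) (x y : Fin 4 → V)
    (c : Fin 4 → Fin 4 → ℝ) (k : Fin 4) : cm (fun i j => bivSum x y (c k) (e i) (e j)) =
      cmb c (fun l => blk (fun i => inner ℝ (x l) (e i)) (fun i => inner ℝ (y l) (e i))) k := by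
  funext i j
  simp only [cm, bivSum, biv, cmb, blk, Finset.sum_apply, Pi.smul_apply, smul_eq_mul]
  push_cast
  exact Finset.sum_congr rfl fun l _ => by ring

theorem sumSkew_curv {K : ℕ} {A : Fin K → V → V → ℝ} (hA : ∀ k, SkewForm (A k)) :
    AlgCurv (fun u v w z => ∑ k, skewCurv (A k) u v w z) where
  add x x' y z w := by
    rw [← Finset.sum_add_distrib]
    exact Finset.sum_congr rfl fun k _ => (hA k).curv.add _ _ _ _ _
  smul t x y z w := by
    rw [Finset.mul_sum]
    exact Finset.sum_congr rfl fun k _ => (hA k).curv.smul _ _ _ _ _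
  anti x y z w := by
    rw [← Finset.sum_neg_distrib]
    exact Finset.sum_congr rfl fun k _ => (hA k).curv.anti _ _ _ _
  pair x y z w := Finset.sum_congr rfl fun k _ => (hA k).curv.pair _ _ _ _
  bianchi x y z w := by
    rw [← Finset.sum_add_distrib, ← Finset.sum_add_distrib]
    exact Finset.sum_eq_zero fun k _ => (hA k).curv.bianchi _ _ _ _

/-- the general vector form -/
theorem vec_bound (e : OrthonormalBasis (Fin m × Bool) ℝ V) {R Q : V → V → V → V → ℝ}
    (hR : AlgCurv R) (hQ : AlgCurv Q) {δ : ℝ} (hδ : 0 ≤ δ)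
    (hn : OpNonneg (negT (addT (addT R fun u v w z => δ * unitT u v w z) Q)))
    {S : Zc (I2 m → ℂ)} (hC : eL (cx (cp e Q)) = (2 : ℂ) • S) (hS : PosS S) :
    roundGB m δ ≤ (-1) ^ m * gbc e R := by
  classical
  rw [gbc_eq]
  have hπ := Real.pi_pos
  have hc : 0 < 1 / ((8 * Real.pi) ^ m * (m.factorial : ℝ)) := by positivity
  have hr : roundGB m δ = 1 / ((8 * Real.pi) ^ m * m.factorial) *
      (2 ^ m * (δ ^ m * (2 * m).factorial)) := by
    unfold roundGB
    have : (8 * Real.pi) ^ m = 2 ^ m * (4 * Real.pi) ^ m := by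
      rw [← mul_pow]; congr 1; ring
    rw [this]
    field_simp
  rw [hr]
  refine mul_le_mul_of_nonneg_left ?_ hc.le
  have hP : AlgCurv (negT (addT (addT R fun u v w z => δ * unitT u v w z) Q)) :=
    neg_curv (add_curv (add_curv hR (unit_curv δ)) hQ)
  have h1 := gm_boundS (adm_unit (m := m) hδ) (adm_cp e hP hn) hC hS
  rw [unit_gm] at h1
  refine h1.trans (le_of_eq ?_)
  congr 1
  funext _ i j k l
  have h2 := cp_unit e i j k l
  simp only [cp, negT, addT, h2]
  ring

theorem span_four (e : OrthonormalBasis (Fin m × Bool) ℝ V) {R : V → V → V → V → ℝ}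
    (hR : AlgCurv R) {δ : ℝ} (hδ : 0 ≤ δ) (h : SpanPlus 4 δ R) :
    roundGB m δ ≤ (-1) ^ m * gbc e R := by
  obtain ⟨x, y, K, c, hn⟩ := h
  obtain ⟨c', hc'⟩ := reduce x y c
  have e0 : (fun u v w z => ∑ k, skewCurv (bivSum x y (c k)) u v w z) =
      fun u v w z => ∑ k, skewCurv (bivSum x y (c' k)) u v w z := by
    funext u v w z
    exact hc' u v w z
  rw [e0] at hn
  refine vec_bound e hR (sumSkew_curv fun k => bivSum_skew x y (c' k)) hδ hn
    (S := ∑ k, qi (cmb c' (fun l => blk (fun i => inner ℝ (x l) (e i))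
      (fun i => inner ℝ (y l) (e i))) k)) ?_ ?_
  · have h1 := eL_sum_sc (m := m) (fun (k : Fin 4) i j => bivSum x y (c' k) (e i) (e j))
    have h2 : (cp e fun u v w z => ∑ k, skewCurv (bivSum x y (c' k)) u v w z) =
        fun i j k l => ∑ a, scR (fun i j => bivSum x y (c' a) (e i) (e j)) i j k l := by
      funext i j k l
      simp only [cp, skewCurv, scR]
    rw [h2, h1]
    congr 1
    exact Finset.sum_congr rfl fun k _ => by rw [cm_bivSum]
  · exact four_posS (fun l => Blk_blk _ _) (by norm_num) c'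

end vec

end Pool.Agent.U486.HF
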