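import Pool.Agent.U486.HF.Span
import Pool.Agent.Y195.HF.Main

/-!
# The Gauss–Bonnet–Chern integrand for a nonpositive curvature operator and a tensor whose powers
are nonnegative
-/

set_option autoImplicit false

namespace Pool.Agent.U486.HF

open Finset Pool.Agent.Y195.HF Pool.Agent.W666.GB Pool.Agent.W669.HD

variable {m : ℕ}

/-- The algebraic main theorem. -/
theorem gm_boundS {D P C : T4 m} (hD : Adm D) (hP : Adm P) {S : Zc (I2 m → ℂ)}
    (hC : eL (cx C) = (2 : ℂ) • S) (hS : PosS S) :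
    gm (fun _ : Fin m => D) ≤ gm (fun _ : Fin m =>
      (fun i j k l => D i j k l + (P i j k l + C i j k l) : T4 m)) := by
  have key : ∀ a b c : ℕ, a + b + c = m →
      0 ≤ LR m (eL (cx D) ^ a * (eL (cx P) ^ b * eL (cx C) ^ c)) := by
    intro a b c habc
    have hI : Inv (eL (cx D) ^ a * eL (cx P) ^ b) := (hD.inv.pow a).mul (hP.inv.pow b)
    have hc : eL (cx D) ^ a * eL (cx P) ^ b ∈ cone m (a + b) :=
      cone_mul (cone_pow hD.mem a) (cone_pow hP.mem b)
    have h := hS c (a + b) _ hI hc (by omega)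
    rw [el'_apply, ← LR_apply] at h
    have e1 : eL (cx D) ^ a * (eL (cx P) ^ b * eL (cx C) ^ c) =
        ((2 : ℝ) ^ c) • (S ^ c * (eL (cx D) ^ a * eL (cx P) ^ b)) := by
      rw [hC, smul_pow, ← Complex.coe_smul]
      push_cast
      simp only [Algebra.smul_def]
      ring
    rw [e1, map_smul, smul_eq_mul]
    exact mul_nonneg (pow_nonneg (by norm_num) _) h
  have hsum : eL (cx (fun i j k l => D i j k l + (P i j k l + C i j k l) : T4 m)) =
      eL (cx D) + (eL (cx P) + eL (cx C)) := by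
    rw [← eL_add (cx P), ← eL_add (cx D)]
    congr 1
    funext i j k l
    simp only [cx]
    push_cast
    rfl
  rw [gm_LR, gm_LR, hsum, add_pow, map_sum, Finset.sum_range_succ]
  have h1 : eL (cx D) ^ m * (eL (cx P) + eL (cx C)) ^ (m - m) *
      ((m.choose m : ℕ) : Zc (I2 m → ℂ)) = eL (cx D) ^ m := by
    rw [Nat.sub_self, pow_zero, Nat.choose_self, Nat.cast_one, mul_one, mul_one]
  rw [h1]
  have h2 : 0 ≤ ∑ k ∈ Finset.range m, LR m (eL (cx D) ^ k *
      (eL (cx P) + eL (cx C)) ^ (m - k) * ((m.choose k : ℕ) : Zc (I2 m → ℂ))) := by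
    refine Finset.sum_nonneg fun k hk => ?_
    rw [Finset.mem_range] at hk
    rw [add_pow, Finset.mul_sum, Finset.sum_mul, map_sum]
    refine Finset.sum_nonneg fun j hj => ?_
    rw [Finset.mem_range] at hj
    have h3 := key k j (m - k - j) (by omega)
    have e2 : eL (cx D) ^ k * (eL (cx P) ^ j * eL (cx C) ^ (m - k - j) *
        (((m - k).choose j : ℕ) : Zc (I2 m → ℂ))) * ((m.choose k : ℕ) : Zc (I2 m → ℂ)) =
        (((m - k).choose j * m.choose k : ℕ) : ℝ) • (eL (cx D) ^ k * (eL (cx P) ^ j *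
          eL (cx C) ^ (m - k - j))) := by
      simp only [Algebra.smul_def, map_natCast, Nat.cast_mul, map_mul]
      ring
    rw [e2, map_smul, smul_eq_mul]
    exact mul_nonneg (Nat.cast_nonneg _) h3
  linarith

/-- superadditivity in dimension six -/
theorem gm_six {P C : T4 3} (hP : Adm P) {K : ℕ} (hK : K ≤ 6) {A : Fin K → Mt 3}
    (hA : ∀ k i j, A k j i = - A k i j) (hAr : ∀ k, cj (A k) = A k)
    (hC : eL (cx C) = (2 : ℂ) • ∑ k, qi (A k)) :
    gm (fun _ : Fin 3 => P) + gm (fun _ : Fin 3 => C) ≤ gm (fun _ : Fin 3 =>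
      (fun i j k l => P i j k l + C i j k l : T4 3)) := by
  have hsum : eL (cx (fun i j k l => P i j k l + C i j k l : T4 3)) =
      eL (cx P) + eL (cx C) := by
    rw [← eL_add (cx P)]
    congr 1
    funext i j k l
    simp only [cx]
    push_cast
    rfl
  have k1 : 0 ≤ LR 3 (eL (cx P) ^ 2 * eL (cx C)) := by
    have h := pos_one hA hAr (hP.inv.pow 2) (cone_pow hP.mem 2) (by norm_num)
    rw [el'_apply, ← LR_apply] at h
    have e1 : eL (cx P) ^ 2 * eL (cx C) =
        (2 : ℝ) • ((∑ k, qi (A k)) ^ 1 * eL (cx P) ^ 2) := by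
      rw [hC, ← Complex.coe_smul]
      push_cast
      simp only [Algebra.smul_def]
      ring
    rw [e1, map_smul, smul_eq_mul]
    exact mul_nonneg (by norm_num) h
  have k2 : 0 ≤ LR 3 (eL (cx P) * eL (cx C) ^ 2) := by
    have h := six_sq hK hA hAr hP.inv hP.mem (by norm_num)
    rw [el'_apply, ← LR_apply] at h
    have e1 : eL (cx P) * eL (cx C) ^ 2 =
        (4 : ℝ) • ((∑ k, qi (A k)) ^ 2 * eL (cx P)) := by
      rw [hC, ← Complex.coe_smul]
      push_cast
      simp only [Algebra.smul_def, mul_pow, ← map_pow]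
      norm_num
      ring
    rw [e1, map_smul, smul_eq_mul]
    exact mul_nonneg (by norm_num) h
  have e3 : (eL (cx P) + eL (cx C)) ^ 3 = eL (cx P) ^ 3 + eL (cx C) ^ 3 +
      (3 : ℝ) • (eL (cx P) ^ 2 * eL (cx C)) + (3 : ℝ) • (eL (cx P) * eL (cx C) ^ 2) := by
    simp only [Algebra.smul_def, map_ofNat]
    ring
  rw [gm_LR, gm_LR, gm_LR, hsum, e3]
  simp only [map_add, map_smul, smul_eq_mul]
  linarith

theorem eL_sum_sc {K : ℕ} (A : Fin K → Fin m × Bool → Fin m × Bool → ℝ) :
    eL (cx (fun i j k l => ∑ a, scR (A a) i j k l)) = (2 : ℂ) • ∑ a, qi (cm (A a)) := by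
  have h1 : cx (fun i j k l => ∑ a, scR (A a) i j k l) =
      fun i j k l => ∑ a, cx (scR (A a)) i j k l := by
    funext i j k l
    simp only [cx]
    push_cast
    rfl
  rw [h1, eL_sum, Finset.smul_sum]
  exact Finset.sum_congr rfl fun a _ => eL_scR (A a)


end Pool.Agent.U486.HF
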