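import Pool.Agent.Y195.HF.Pos
import Mathlib.Algebra.Polynomial.Derivative
import Mathlib.Algebra.Polynomial.Roots

/-!
# Squares of sums of the invariants of at most six skew forms
-/

set_option autoImplicit false

namespace Pool.Agent.U486.HF

open Finset Pool.Agent.Y195.HF

variable {m : ℕ}

section psd

theorem append_cj {N n : ℕ} (A : Fin N → Mt m) (B : Fin n → Mt m) :
    Fin.append (fun b => cj (A b)) (fun b => cj (B b)) = fun b => cj (Fin.append A B b) := by
  funext b
  refine Fin.addCases (fun i => ?_) (fun i => ?_) b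
  · simp only [Fin.append_left]
  · simp only [Fin.append_right]

/-- positivity for sums of products -/
theorem psd {ι : Type} [Fintype ι] {N n : ℕ} (z : ι → ℂ) (A : ι → Fin N → Mt m)
    {T : Zc (I2 m → ℂ)} (hT : T ∈ cone m n) (hN : N + n = m) :
    ∃ r : ℝ, 0 ≤ r ∧ LF m (zval ((∑ i, z i • ∏ b, ff false false (A i b)) *
      (∑ i, (starRingEnd ℂ) (z i) • ∏ b, ff true true (cj (A i b))) * T)) = (r : ℂ) := by
  subst hN
  unfold cone at hT
  induction hT using AddSubmonoid.closure_induction with
  | mem y hy =>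
    obtain ⟨r, B, hr, rfl⟩ := hy
    refine ⟨r * Complex.normSq (∑ i, z i * lam (Fin.append (A i) B)),
      mul_nonneg hr (Complex.normSq_nonneg _), ?_⟩
    have h1 : (∑ i, z i • ∏ b, ff false false (A i b)) *
        (∑ i, (starRingEnd ℂ) (z i) • ∏ b, ff true true (cj (A i b))) *
        ((r : ℂ) • ∏ b, (ff false false (B b) * ff true true (cj (B b)))) =
        ∑ i, ∑ j, ((r : ℂ) * (z i * (starRingEnd ℂ) (z j))) •
          ∏ b, (ff false false (Fin.append (A i) B b) *
            ff true true (Fin.append (fun b => cj (A j b)) (fun b => cj (B b)) b)) := by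
      rw [Finset.sum_mul_sum, Finset.sum_mul]
      refine Finset.sum_congr rfl fun i _ => ?_
      rw [Finset.sum_mul]
      refine Finset.sum_congr rfl fun j _ => ?_
      rw [Fin.prod_univ_add]
      simp only [Fin.append_left, Fin.append_right, Finset.prod_mul_distrib, Algebra.smul_def,
        map_mul]
      ring
    rw [h1, map_sum, map_sum]
    have h2 : ∀ i j, LF (N + n) (zval (((r : ℂ) * (z i * (starRingEnd ℂ) (z j))) •
          ∏ b, (ff false false (Fin.append (A i) B b) *
            ff true true (Fin.append (fun b => cj (A j b)) (fun b => cj (B b)) b)))) =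
        (r : ℂ) * ((z i * lam (Fin.append (A i) B)) *
          (starRingEnd ℂ) (z j * lam (Fin.append (A j) B))) := by
      intro i j
      rw [map_smul, map_smul, LF_prod, append_cj, lam_cj, smul_eq_mul, map_mul]
      ring
    have h3 : ∀ i, LF (N + n) (zval (∑ j, ((r : ℂ) * (z i * (starRingEnd ℂ) (z j))) •
          ∏ b, (ff false false (Fin.append (A i) B b) *
            ff true true (Fin.append (fun b => cj (A j b)) (fun b => cj (B b)) b)))) =
        (r : ℂ) * ((z i * lam (Fin.append (A i) B)) *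
          (starRingEnd ℂ) (∑ j, z j * lam (Fin.append (A j) B))) := by
      intro i
      rw [map_sum, map_sum, map_sum, Finset.mul_sum, Finset.mul_sum]
      exact Finset.sum_congr rfl fun j _ => h2 i j
    rw [Finset.sum_congr rfl fun i _ => h3 i, ← Finset.mul_sum, ← Finset.sum_mul,
      Complex.mul_conj, Complex.ofReal_mul]
  | zero => exact ⟨0, le_rfl, by rw [mul_zero, map_zero, map_zero, Complex.ofReal_zero]⟩
  | add x y _ _ hx hy =>
    obtain ⟨r, hr, hr'⟩ := hx
    obtain ⟨s, hs, hs'⟩ := hy
    exact ⟨r + s, add_nonneg hr hs, by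
      rw [mul_add, map_add, map_add, hr', hs', Complex.ofReal_add]⟩

end psd

section lie

/-- the functional -/
noncomputable def el' (T : Zc (I2 m → ℂ)) : Zc (I2 m → ℂ) →ₗ[ℂ] ℂ where
  toFun x := LF m (zval (x * T))
  map_add' x y := by rw [add_mul, map_add, map_add]
  map_smul' c x := by rw [smul_mul_assoc, map_smul, map_smul]; rfl

theorem el'_apply (T x : Zc (I2 m → ℂ)) : el' T x = LF m (zval (x * T)) := rfl

theorem el'_mul (T S x : Zc (I2 m → ℂ)) : el' (S * T) x = el' T (x * S) := by
  rw [el'_apply, el'_apply, mul_assoc]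

/-- polynomials which describe the action of the unipotent elements -/
def Fl (F : Polynomial (Zc (I2 m → ℂ))) : Prop :=
  ∀ ε : ℂ, ExteriorAlgebra.map (act m 1 ε 0 1) (zval (F.eval 0)) =
    zval (F.eval (algebraMap ℂ _ ε))

theorem Fl.mul {F G : Polynomial (Zc (I2 m → ℂ))} (hF : Fl F) (hG : Fl G) : Fl (F * G) := by
  intro ε
  rw [Polynomial.eval_mul, Polynomial.eval_mul, map_mul, map_mul, map_mul, hF ε, hG ε]

/-- the first generator -/
noncomputable def gp (A : Mt m) : Polynomial (Zc (I2 m → ℂ)) :=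
  Polynomial.C (ff false false A) + Polynomial.X * Polynomial.C (2 * ff false true A) +
    Polynomial.X ^ 2 * Polynomial.C (ff true true A)

/-- the second generator -/
noncomputable def gz (A : Mt m) : Polynomial (Zc (I2 m → ℂ)) :=
  Polynomial.C (ff false true A) + Polynomial.X * Polynomial.C (ff true true A)

/-- the third generator -/
noncomputable def gc (A : Mt m) : Polynomial (Zc (I2 m → ℂ)) := Polynomial.C (ff true true A)

theorem Fl_p {A : Mt m} (hA : ∀ i j, A j i = - A i j) : Fl (gp A) := by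
  intro ε
  simp only [gp, Polynomial.eval_add, Polynomial.eval_mul, Polynomial.eval_C, Polynomial.eval_X,
    Polynomial.eval_pow]
  have h0 : ff false false A + 0 * (2 * ff false true A) + 0 ^ 2 * ff true true A =
      ff false false A := by ring
  rw [h0, map_pp _ _ _ _ hA]
  congr 1
  simp only [Algebra.smul_def, map_mul, map_pow, map_one, map_ofNat]
  ring

theorem Fl_z {A : Mt m} (hA : ∀ i j, A j i = - A i j) : Fl (gz A) := by
  intro ε
  simp only [gz, Polynomial.eval_add, Polynomial.eval_mul, Polynomial.eval_C, Polynomial.eval_X]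
  have h0 : ff false true A + 0 * ff true true A = ff false true A := by ring
  rw [h0, map_pc _ _ _ _ hA]
  congr 1
  simp only [Algebra.smul_def, map_mul, map_add, map_one, map_zero]
  ring

theorem Fl_c {A : Mt m} (hA : ∀ i j, A j i = - A i j) : Fl (gc A) := by
  intro ε
  simp only [gc, Polynomial.eval_C]
  rw [map_cc _ _ _ _ hA]
  congr 1
  simp only [Algebra.smul_def, map_mul, map_pow, map_one, map_zero]
  ring

theorem lie {F : Polynomial (Zc (I2 m → ℂ))} (hF : Fl F) {T : Zc (I2 m → ℂ)} (hT : Inv T) :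
    el' T ((Polynomial.derivative F).eval 0) = 0 := by
  have h1 : ∀ ε : ℂ, el' T (F.eval (algebraMap ℂ _ ε)) = el' T (F.eval 0) := by
    intro ε
    have hdet : (1 : ℂ) * 1 - ε * 0 = 1 := by ring
    have h0 : ExteriorAlgebra.map (act m 1 ε 0 1) (zval (F.eval 0 * T)) =
        zval (F.eval (algebraMap ℂ _ ε) * T) := by
      rw [map_mul zval, map_mul zval, map_mul, hF ε, hT _ _ _ _ hdet]
    rw [el'_apply, el'_apply, ← LF_act hdet (zval (F.eval 0 * T)), h0]
  have h2 : (Polynomial.derivative F).eval 0 = F.coeff 1 := by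
    rw [← Polynomial.coeff_zero_eq_eval_zero, Polynomial.coeff_derivative]
    simp
  rw [h2]
  set g : Polynomial ℂ := ∑ j ∈ Finset.range (F.natDegree + 2),
    Polynomial.monomial j (el' T (F.coeff j)) with hg
  have h3 : ∀ ε : ℂ, g.eval ε = el' T (F.eval (algebraMap ℂ _ ε)) := by
    intro ε
    rw [hg, Polynomial.eval_finsetSum, Polynomial.eval_eq_sum_range' (n := F.natDegree + 2)
      (by omega), map_sum]
    refine Finset.sum_congr rfl fun j _ => ?_
    rw [Polynomial.eval_monomial, ← map_pow, mul_comm (F.coeff j), ← Algebra.smul_def, map_smul,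
      smul_eq_mul, mul_comm]
  have h4 : g = Polynomial.C (el' T (F.eval 0)) := by
    refine Polynomial.funext fun ε => ?_
    rw [h3, h1, Polynomial.eval_C]
  have h5 : g.coeff 1 = el' T (F.coeff 1) := by
    rw [hg, Polynomial.finsetSum_coeff, Finset.sum_eq_single 1]
    · rw [Polynomial.coeff_monomial, if_pos rfl]
    · intro j _ hj
      rw [Polynomial.coeff_monomial, if_neg hj]
    · intro h
      exact absurd (Finset.mem_range.mpr (by omega)) h
  rw [← h5, h4, Polynomial.coeff_C_succ]

theorem tor {T : Zc (I2 m → ℂ)} (hT : Inv T) {x : Zc (I2 m → ℂ)} {μ : ℂ} (hμ : μ ≠ 1)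
    (hx : ExteriorAlgebra.map (act m 2 0 0 (1 / 2)) (zval x) = zval (μ • x)) : el' T x = 0 := by
  have h1 : (2 : ℂ) * (1 / 2) - 0 * 0 = 1 := by norm_num
  have h0 : ExteriorAlgebra.map (act m 2 0 0 (1 / 2)) (zval (x * T)) = zval (μ • (x * T)) := by
    rw [map_mul zval, map_mul, hx, hT _ _ _ _ h1, ← map_mul, smul_mul_assoc]
  have h2 := LF_act (m := m) h1 (zval (x * T))
  rw [h0, map_smul, map_smul, smul_eq_mul, ← el'_apply] at h2
  have h3 : (μ - 1) * el' T x = 0 := by rw [sub_mul, h2, one_mul, sub_self]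
  exact (mul_eq_zero.mp h3).resolve_left (sub_ne_zero.mpr hμ)

theorem tor_p {A : Mt m} (hA : ∀ i j, A j i = - A i j) :
    ExteriorAlgebra.map (act m 2 0 0 (1 / 2)) (zval (ff false false A)) =
      zval ((4 : ℂ) • ff false false A) := by
  rw [map_pp _ _ _ _ hA]
  congr 1
  norm_num

theorem tor_c {A : Mt m} (hA : ∀ i j, A j i = - A i j) :
    ExteriorAlgebra.map (act m 2 0 0 (1 / 2)) (zval (ff true true A)) =
      zval ((1 / 4 : ℂ) • ff true true A) := by
  rw [map_cc _ _ _ _ hA]
  congr 1
  norm_num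

theorem tor_z {A : Mt m} (hA : ∀ i j, A j i = - A i j) :
    ExteriorAlgebra.map (act m 2 0 0 (1 / 2)) (zval (ff false true A)) =
      zval ((1 : ℂ) • ff false true A) := by
  rw [map_pc _ _ _ _ hA]
  congr 1
  norm_num

theorem tor_mul {x y : Zc (I2 m → ℂ)} {μ ν : ℂ}
    (hx : ExteriorAlgebra.map (act m 2 0 0 (1 / 2)) (zval x) = zval (μ • x))
    (hy : ExteriorAlgebra.map (act m 2 0 0 (1 / 2)) (zval y) = zval (ν • y)) :
    ExteriorAlgebra.map (act m 2 0 0 (1 / 2)) (zval (x * y)) = zval ((μ * ν) • (x * y)) := by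
  rw [map_mul, map_mul, hx, hy, ← map_mul, smul_mul_smul_comm]

end lie

section relations

variable {A B : Mt m} {T : Zc (I2 m → ℂ)}

theorem rel_pz (hA : ∀ i j, A j i = - A i j) (hB : ∀ i j, B j i = - B i j) (hT : Inv T) :
    2 * el' T (ff false true A * ff false true B) + el' T (ff false false A * ff true true B) =
      0 := by
  have h := lie ((Fl_p hA).mul (Fl_z hB)) hT
  have h1 : (Polynomial.derivative (gp A * gz B)).eval 0 =
      (2 : ℂ) • (ff false true A * ff false true B) + ff false false A * ff true true B := by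
    simp [gp, gz, Polynomial.derivative_mul, Algebra.smul_def, map_ofNat]
    ring
  rw [h1, map_add, map_smul, smul_eq_mul] at h
  exact h

theorem rel_zp (hA : ∀ i j, A j i = - A i j) (hB : ∀ i j, B j i = - B i j) (hT : Inv T) :
    2 * el' T (ff false true A * ff false true B) + el' T (ff true true A * ff false false B) =
      0 := by
  have h := rel_pz hB hA hT
  rw [mul_comm (ff false true B), mul_comm (ff false false B)] at h
  exact h

/-- the quartic identity -/
theorem quartic (hA : ∀ i j, A j i = - A i j) (hB : ∀ i j, B j i = - B i j) (hT : Inv T) :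
    16 * el' T (qi A * qi B) =
      36 * el' T ((ff false false A * ff false false B) * (ff true true A * ff true true B)) -
      3 * (el' T (ff false false A ^ 2 * ff true true B ^ 2) +
        el' T (ff false false B ^ 2 * ff true true A ^ 2)) := by
  set p := ff false false A with hp
  set c := ff true true A with hc
  set z := ff false true A with hz
  set p' := ff false false B with hp'
  set c' := ff true true B with hc'
  set z' := ff false true B with hz'
  have R1 := lie (((Fl_p hA).mul (Fl_p hA)).mul ((Fl_c hB).mul (Fl_z hB))) hT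
  have R2 := lie (((Fl_p hA).mul (Fl_z hA)).mul ((Fl_p hB).mul (Fl_c hB))) hT
  have R3 := lie (((Fl_p hA).mul (Fl_z hA)).mul ((Fl_z hB).mul (Fl_z hB))) hT
  have R4 := lie (((Fl_p hA).mul (Fl_c hA)).mul ((Fl_p hB).mul (Fl_z hB))) hT
  have R5 := lie (((Fl_z hA).mul (Fl_z hA)).mul ((Fl_p hB).mul (Fl_z hB))) hT
  have R6 := lie (((Fl_c hA).mul (Fl_z hA)).mul ((Fl_p hB).mul (Fl_p hB))) hT
  have E1 : (Polynomial.derivative ((gp A * gp A) * (gc B * gz B))).eval 0 =
      (4 : ℂ) • (p * z * (c' * z')) + p * p * (c' * c') := by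
    simp [gp, gz, gc, Polynomial.derivative_mul, Algebra.smul_def, map_ofNat]
    ring
  have E2 : (Polynomial.derivative ((gp A * gz A) * (gp B * gc B))).eval 0 =
      (2 : ℂ) • (z * z * (p' * c')) + p * c * (p' * c') + (2 : ℂ) • (p * z * (c' * z')) := by
    simp [gp, gz, gc, Polynomial.derivative_mul, Algebra.smul_def, map_ofNat]
    ring
  have E3 : (Polynomial.derivative ((gp A * gz A) * (gz B * gz B))).eval 0 =
      (2 : ℂ) • (z * z * (z' * z')) + p * c * (z' * z') + (2 : ℂ) • (p * z * (c' * z')) := by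
    simp [gp, gz, gc, Polynomial.derivative_mul, Algebra.smul_def, map_ofNat]
    ring
  have E4 : (Polynomial.derivative ((gp A * gc A) * (gp B * gz B))).eval 0 =
      (2 : ℂ) • (c * z * (p' * z')) + (2 : ℂ) • (p * c * (z' * z')) + p * c * (p' * c') := by
    simp [gp, gz, gc, Polynomial.derivative_mul, Algebra.smul_def, map_ofNat]
    ring
  have E5 : (Polynomial.derivative ((gz A * gz A) * (gp B * gz B))).eval 0 =
      (2 : ℂ) • (c * z * (p' * z')) + (2 : ℂ) • (z * z * (z' * z')) + z * z * (p' * c') := by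
    simp [gp, gz, gc, Polynomial.derivative_mul, Algebra.smul_def, map_ofNat]
    ring
  have E6 : (Polynomial.derivative ((gc A * gz A) * (gp B * gp B))).eval 0 =
      c * c * (p' * p') + (4 : ℂ) • (c * z * (p' * z')) := by
    simp [gp, gz, gc, Polynomial.derivative_mul, Algebra.smul_def, map_ofNat]
    ring
  rw [E1] at R1
  rw [E2] at R2
  rw [E3] at R3
  rw [E4] at R4
  rw [E5] at R5
  rw [E6] at R6
  simp only [map_add, map_smul, smul_eq_mul] at R1 R2 R3 R4 R5 R6
  have Q : qi A * qi B = p * c * (p' * c') - p * c * (z' * z') - z * z * (p' * c') +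
      z * z * (z' * z') := by
    unfold qi
    ring
  have Q1 : (p * p') * (c * c') = p * c * (p' * c') := by ring
  have Q2 : p ^ 2 * c' ^ 2 = p * p * (c' * c') := by ring
  have Q3 : p' ^ 2 * c ^ 2 = c * c * (p' * p') := by ring
  rw [Q, Q1, Q2, Q3]
  simp only [map_add, map_sub]
  generalize el' T (p * c * (p' * c')) = x3 at *
  generalize el' T (p * c * (z' * z')) = x4 at *
  generalize el' T (z * z * (p' * c')) = x5 at *
  generalize el' T (z * z * (z' * z')) = x6 at *
  generalize el' T (p * z * (c' * z')) = x2 at *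
  generalize el' T (p * p * (c' * c')) = x1 at *
  generalize el' T (c * z * (p' * z')) = x7 at *
  generalize el' T (c * c * (p' * p')) = x8 at *
  have h1 : x1 = -4 * x2 := by linear_combination R1
  have h8 : x8 = -4 * x7 := by linear_combination R6
  have h3 : x3 = -2 * x5 - 2 * x2 := by linear_combination R2
  have h4 : x4 = -2 * x6 - 2 * x2 := by linear_combination R3
  have h7 : 2 * x7 = -2 * x6 - x5 := by linear_combination R5
  have h5 : x5 = -2 * x6 - 2 * x2 := by
    linear_combination (-1 / 3 : ℂ) * R4 + (1 / 3 : ℂ) * R5 + (2 / 3 : ℂ) * R3 + (1 / 3 : ℂ) * R2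
  rw [h1, h8, h3, h4]
  linear_combination (-6 : ℂ) * h7 + 30 * h5

end relations

section two

theorem qf_cross {A B : Mt m} {T : Zc (I2 m → ℂ)} {n : ℕ} (hTc : T ∈ cone m n)
    (hN : 2 + n = m) (hAr : cj A = A) (hBr : cj B = B) :
    ∃ r : ℝ, 0 ≤ r ∧ el' T ((ff false false A * ff false false B) *
      (ff true true A * ff true true B)) = (r : ℂ) := by
  obtain ⟨r, hr, hr'⟩ := psd (ι := Unit) (fun _ => 1) (fun _ => ![A, B]) hTc hN
  refine ⟨r, hr, ?_⟩
  rw [← hr', el'_apply]
  congr 2
  simp [Fin.prod_univ_two, hAr, hBr]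

theorem qf_diff {A B : Mt m} {T : Zc (I2 m → ℂ)} {n : ℕ} (hTc : T ∈ cone m n)
    (hN : 2 + n = m) (hAr : cj A = A) (hBr : cj B = B) :
    ∃ r : ℝ, 0 ≤ r ∧ el' T ((ff false false A ^ 2 - ff false false B ^ 2) *
      (ff true true A ^ 2 - ff true true B ^ 2)) = (r : ℂ) := by
  obtain ⟨r, hr, hr'⟩ := psd (ι := Bool) (fun s => if s then 1 else -1)
    (fun s _ => if s then A else B) hTc hN
  refine ⟨r, hr, ?_⟩
  rw [← hr', el'_apply]
  congr 2
  simp [Fin.prod_univ_two, hAr, hBr]
  ring

/-- The square of the sum of the invariants of at most six skew forms. -/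
theorem six_sq {K : ℕ} (hK : K ≤ 6) {A : Fin K → Mt m} (hA : ∀ k i j, A k j i = - A k i j)
    (hAr : ∀ k, cj (A k) = A k) {T : Zc (I2 m → ℂ)} (hT : Inv T) {n : ℕ} (hTc : T ∈ cone m n)
    (hN : 2 + n = m) : 0 ≤ (el' T ((∑ k, qi (A k)) ^ 2)).re := by
  choose a ha ha' using fun k l => qf_cross hTc hN (hAr k) (hAr l)
  choose d hd hd' using fun k l => qf_diff hTc hN (hAr k) (hAr l)
  set b : Fin K → Fin K → ℂ := fun k l => el' T (ff false false (A k) ^ 2 *
    ff true true (A l) ^ 2) with hb
  have h1 : ∀ k l, (d k l : ℂ) = a k k + a l l - b k l - b l k := by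
    intro k l
    have e1 : (ff false false (A k) ^ 2 - ff false false (A l) ^ 2) *
        (ff true true (A k) ^ 2 - ff true true (A l) ^ 2) =
        (ff false false (A k) * ff false false (A k)) * (ff true true (A k) * ff true true (A k)) +
        (ff false false (A l) * ff false false (A l)) * (ff true true (A l) * ff true true (A l)) -
        ff false false (A k) ^ 2 * ff true true (A l) ^ 2 -
        ff false false (A l) ^ 2 * ff true true (A k) ^ 2 := by ring
    rw [← hd', e1, map_sub, map_sub, map_add, ha', ha']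
  have h2 : ∀ k l, 16 * el' T (qi (A k) * qi (A l)) = 36 * (a k l : ℂ) - 3 * (b k l + b l k) := by
    intro k l
    rw [quartic (hA k) (hA l) hT, ha']
  have h3 : 16 * el' T ((∑ k, qi (A k)) ^ 2) =
      ((∑ k, ∑ l, (36 * a k l - 3 * (a k k + a l l - d k l)) : ℝ) : ℂ) := by
    rw [sq, Finset.sum_mul_sum, map_sum, Finset.mul_sum]
    push_cast
    refine Finset.sum_congr rfl fun k _ => ?_
    rw [map_sum, Finset.mul_sum]
    refine Finset.sum_congr rfl fun l _ => ?_
    rw [h2, h1]
    ring
  have h4 : (0 : ℝ) ≤ ∑ k, ∑ l, (36 * a k l - 3 * (a k k + a l l - d k l)) := by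
    have e1 : ∀ k, ∑ l, (36 * a k l - 3 * (a k k + a l l - d k l)) =
        36 * ∑ l, a k l - 3 * (K * a k k) - 3 * ∑ l, a l l + 3 * ∑ l, d k l := by
      intro k
      simp only [Finset.mul_sum, Finset.sum_sub_distrib, Finset.sum_add_distrib, mul_add, mul_sub,
        Finset.sum_const, Finset.card_univ, Fintype.card_fin, nsmul_eq_mul]
      ring
    have e2 : ∀ k, a k k ≤ ∑ l, a k l := fun k =>
      Finset.single_le_sum (fun l _ => ha k l) (Finset.mem_univ k)
    have e3 : ∀ k, 0 ≤ ∑ l, d k l := fun k => Finset.sum_nonneg fun l _ => hd k l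
    have hK' : (K : ℝ) ≤ 6 := by exact_mod_cast hK
    have e4 : ∑ k, (36 * a k k - 3 * (K * a k k) - 3 * ∑ l, a l l) ≤
        ∑ k, ∑ l, (36 * a k l - 3 * (a k k + a l l - d k l)) := by
      refine Finset.sum_le_sum fun k _ => ?_
      rw [e1]
      have := e2 k
      have := e3 k
      linarith
    have e5 : ∑ k, (36 * a k k - 3 * (K * a k k) - 3 * ∑ l, a l l) =
        (36 - 6 * K) * ∑ k, a k k := by
      simp only [Finset.sum_sub_distrib, Finset.sum_const, Finset.card_univ, Fintype.card_fin,
        nsmul_eq_mul, ← Finset.mul_sum]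
      ring
    have e6 : 0 ≤ ∑ k, a k k := Finset.sum_nonneg fun k _ => ha k k
    rw [e5] at e4
    refine le_trans (mul_nonneg ?_ e6) e4
    linarith
  have h5 := congrArg Complex.re h3
  rw [Complex.ofReal_re] at h5
  simp only [Complex.mul_re, Complex.re_ofNat, Complex.im_ofNat, zero_mul, sub_zero] at h5
  linarith

end two

end Pool.Agent.U486.HF
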