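import Pool.Agent.U486.HF.Gen
import Pool.Agent.W688.HD.BAS

/-!
# Pieces on six-dimensional subspaces
-/

set_option autoImplicit false

namespace Pool.Agent.U486.HF

open Finset Pool.Agent.Y195.HF Pool.Agent.W666.GB
open Pool.Agent.W669.HD hiding phi kap

variable {m : ℕ}

section algebra

variable {r : Fin 3 × Bool → Fin m × Bool}

theorem el_supp (hr : Function.Injective r) {C : C4 m}
    (h1 : ∀ i, i ∉ Set.range r → ∀ j k l, C i j k l = 0)
    (h2 : ∀ j, j ∉ Set.range r → ∀ i k l, C i j k l = 0)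
    (h3 : ∀ k, k ∉ Set.range r → ∀ i j l, C i j k l = 0)
    (h4 : ∀ l, l ∉ Set.range r → ∀ i j k, C i j k l = 0) :
    eL C = el (th m false ∘ r) (th m true ∘ r)
      (fun i j k l => C (r i) (r j) (r k) (r l) : C4 3) := by
  rw [eL, el, el]
  symm
  refine Fintype.sum_of_injective r hr _ _ ?_ fun i => ?_
  · intro i hi
    exact Finset.sum_eq_zero fun j _ => Finset.sum_eq_zero fun k _ => Finset.sum_eq_zero
      fun l _ => by rw [h1 i hi, zero_smul]
  refine Fintype.sum_of_injective r hr _ _ ?_ fun j => ?_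
  · intro j hj
    exact Finset.sum_eq_zero fun k _ => Finset.sum_eq_zero
      fun l _ => by rw [h2 j hj, zero_smul]
  refine Fintype.sum_of_injective r hr _ _ ?_ fun k => ?_
  · intro k hk
    exact Finset.sum_eq_zero fun l _ => by rw [h3 k hk, zero_smul]
  refine Fintype.sum_of_injective r hr _ _ ?_ fun l => rfl
  intro l hl
  rw [h4 l hl, zero_smul]

/-- the top element of the piece -/
noncomputable def top6 (r : Fin 3 × Bool → Fin m × Bool) : Zc (I2 m → ℂ) :=
  phi (th m false ∘ r) * phi (th m true ∘ r)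

theorem ff_single (s t : Bool) (x y : Fin m × Bool) :
    ff s t (fun i j => if i = x then (if j = y then 1 else 0) else 0 : Mt m) =
      bv (th m s x) (th m t y) := by
  rw [ff, Finset.sum_eq_single x, Finset.sum_eq_single y]
  · simp
  · intro j _ hj
    simp [hj]
  · intro h
    exact absurd (Finset.mem_univ _) h
  · intro i _ hi
    simp [hi]
  · intro h
    exact absurd (Finset.mem_univ _) h

theorem top6_cone (r : Fin 3 × Bool → Fin m × Bool) : top6 r ∈ cone m 3 := by
  have h := cone_gen' (m := m) (n := 3) (fun b => (fun i j =>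
    if i = r (b, false) then (if j = r (b, true) then 1 else 0) else 0 : Mt m))
  have h1 : ∀ b : Fin 3, cj (fun i j =>
      if i = r (b, false) then (if j = r (b, true) then 1 else 0) else 0 : Mt m) =
      (fun i j => if i = r (b, false) then (if j = r (b, true) then 1 else 0) else 0 : Mt m) := by
    intro b
    funext i j
    simp only [cj]
    split_ifs <;> simp
  simp only [h1, ff_single] at h
  rw [Finset.prod_mul_distrib] at h
  exact h

theorem phi_bv_zero {M : Type} [AddCommGroup M] [Module ℂ M] (u : Fin 3 × Bool → M)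
    (x : Fin 3 × Bool) (w : M) : phi u * bv (u x) w = 0 := by
  obtain ⟨b, s⟩ := x
  rw [phi, ← Finset.mul_prod_erase univ _ (Finset.mem_univ b), mul_assoc, mul_comm, mul_assoc]
  have h : bv (u (b, s)) w * bv (u (b, false)) (u (b, true)) = 0 := by
    cases s
    · exact bv_mul_zero (Or.inl (Or.inl rfl))
    · exact bv_mul_zero (Or.inl (Or.inr rfl))
  rw [h, mul_zero]

theorem top6_el (C : C4 3) : top6 r * el (th m false ∘ r) (th m true ∘ r) C = 0 := by
  rw [el, Finset.mul_sum]
  refine Finset.sum_eq_zero fun i _ => ?_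
  rw [Finset.mul_sum]
  refine Finset.sum_eq_zero fun j _ => ?_
  rw [Finset.mul_sum]
  refine Finset.sum_eq_zero fun k _ => ?_
  rw [Finset.mul_sum]
  refine Finset.sum_eq_zero fun l _ => ?_
  have h := phi_bv_zero (th m false ∘ r) i ((th m false ∘ r) j)
  have h1 : top6 r * (bv ((th m false ∘ r) i) ((th m false ∘ r) j) *
      bv ((th m true ∘ r) k) ((th m true ∘ r) l)) =
      (phi (th m false ∘ r) * bv ((th m false ∘ r) i) ((th m false ∘ r) j)) *
        (phi (th m true ∘ r) * bv ((th m true ∘ r) k) ((th m true ∘ r) l)) := by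
    unfold top6
    ring
  rw [mul_smul_comm, h1, h, zero_mul, smul_zero]

/-- at most six skew forms on a subspace of dimension six -/
theorem six_posS (hr : Function.Injective r) {K : ℕ} (hK : K ≤ 6)
    {A : Fin K → Fin m × Bool → Fin m × Bool → ℝ} (hA : ∀ k i j, A k j i = - A k i j)
    (hs : ∀ k i, i ∉ Set.range r → ∀ j, A k i j = 0)
    (ho : 0 ≤ gm (fun _ : Fin 3 => (fun i j k l => ∑ a, scR (A a) (r i) (r j) (r k) (r l) :
      T4 3))) : PosS (∑ k, qi (cm (A k))) := by
  have hA' : ∀ k i j, cm (A k) j i = - cm (A k) i j := fun k i j => by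
    simp only [cm, hA k i j, Complex.ofReal_neg]
  have hs' : ∀ k j, j ∉ Set.range r → ∀ i, A k i j = 0 := by
    intro k j hj i
    rw [hA k j i, hs k j hj, neg_zero]
  set C : T4 m := fun i j k l => ∑ a, scR (A a) i j k l with hC
  set C' : T4 3 := fun i j k l => ∑ a, scR (A a) (r i) (r j) (r k) (r l) with hC'
  have e1 : eL (cx C) = el (th m false ∘ r) (th m true ∘ r) (cx C') := by
    refine el_supp (C := cx C) hr ?_ ?_ ?_ ?_
    · intro i hi j k l
      have : C i j k l = 0 := by
        simp only [hC, scR]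
        exact Finset.sum_eq_zero fun a _ => by
          rw [hs a i hi, hs a i hi, hs a i hi]; ring
      simp only [cx, this, Complex.ofReal_zero]
    · intro i hi j k l
      have : C j i k l = 0 := by
        simp only [hC, scR]
        exact Finset.sum_eq_zero fun a _ => by
          rw [hs' a i hi, hs a i hi, hs a i hi]; ring
      simp only [cx, this, Complex.ofReal_zero]
    · intro i hi j k l
      have : C j k i l = 0 := by
        simp only [hC, scR]
        exact Finset.sum_eq_zero fun a _ => by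
          rw [hs a i hi, hs' a i hi, hs' a i hi]; ring
      simp only [cx, this, Complex.ofReal_zero]
    · intro i hi j k l
      have : C j k l i = 0 := by
        simp only [hC, scR]
        exact Finset.sum_eq_zero fun a _ => by
          rw [hs' a i hi, hs' a i hi, hs' a i hi]; ring
      simp only [cx, this, Complex.ofReal_zero]
  have e2 : eL (cx C) = (2 : ℂ) • ∑ k, qi (cm (A k)) := eL_sum_sc A
  have e3 : eL (cx C) ^ 3 = ((gm (fun _ : Fin 3 => C') : ℝ) : ℂ) • top6 r := by
    have h := prod_el (th m false ∘ r) (th m true ∘ r) (fun _ : Fin 3 => cx C')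
    rw [Finset.prod_const, Finset.card_univ, Fintype.card_fin, gmC_cx] at h
    rw [e1, h]
    rfl
  have e4 : eL (cx C) ^ 4 = 0 := by
    rw [pow_succ, e3, smul_mul_assoc, e1, top6_el, smul_zero]
  intro N n T hT hTc hN
  have hre : ∀ k, cj (cm (A k)) = cm (A k) := fun k => cj_cm _
  rcases Nat.lt_or_ge N 4 with hlt | hge
  · interval_cases N
    · exact pos_zero hTc hN _
    · exact pos_one hA' hre hT hTc hN
    · exact six_sq hK hA' hre hT hTc hN
    · have h1 : (∑ k, qi (cm (A k))) ^ 3 = ((gm (fun _ : Fin 3 => C') / 8 : ℝ) : ℂ) • top6 r := by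
        have h2 : (∑ k, qi (cm (A k))) ^ 3 = (1 / 8 : ℂ) • eL (cx C) ^ 3 := by
          rw [e2, smul_pow, smul_smul]
          norm_num
        rw [h2, e3, smul_smul]
        congr 1
        push_cast
        ring
      have h3 := cone_mul (top6_cone r) hTc
      rw [hN] at h3
      obtain ⟨ρ, hρ, hρ'⟩ := cone_LF h3
      rw [h1, map_smul, smul_eq_mul, el'_apply, hρ', ← Complex.ofReal_mul, Complex.ofReal_re]
      have : 0 ≤ gm (fun _ : Fin 3 => C') / 8 := by positivity
      exact mul_nonneg this hρ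
  · have h1 : (∑ k, qi (cm (A k))) ^ 4 = 0 := by
      have h2 : (∑ k, qi (cm (A k))) ^ 4 = (1 / 16 : ℂ) • eL (cx C) ^ 4 := by
        rw [e2, smul_pow, smul_smul]
        norm_num
      rw [h2, e4, smul_zero]
    have h2 : N = 4 + (N - 4) := by omega
    rw [h2, pow_add, h1, zero_mul, map_zero, Complex.zero_re]

end algebra

section vec

variable {V : Type} [NormedAddCommGroup V] [InnerProductSpace ℝ V]

/-- adapted bases -/
theorem adapt (e : OrthonormalBasis (Fin m × Bool) ℝ V) {W : Submodule ℝ V}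
    (f : OrthonormalBasis (Fin 3 × Bool) ℝ W) :
    ∃ (e' : OrthonormalBasis (Fin m × Bool) ℝ V) (r : Fin 3 × Bool → Fin m × Bool),
      Function.Injective r ∧ (∀ i, e' (r i) = f i) ∧ ∀ j, j ∉ Set.range r → e' j ∈ Wᗮ := by
  classical
  have : FiniteDimensional ℝ V := e.toBasis.finiteDimensional_of_finite
  have hcard : Module.finrank ℝ V = Fintype.card (Fin m × Bool) :=
    Module.finrank_eq_card_basis e.toBasis
  have hW : Module.finrank ℝ W = Fintype.card (Fin 3 × Bool) :=
    Module.finrank_eq_card_basis f.toBasis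
  have h4 : Fintype.card (Fin 3 × Bool) ≤ Fintype.card (Fin m × Bool) := by
    rw [← hcard, ← hW]
    exact Submodule.finrank_le W
  obtain ⟨r⟩ := Function.Embedding.nonempty_of_card_le h4
  obtain ⟨v, hv⟩ : ∃ v : Fin m × Bool → V, v = Function.extend r (fun i => (f i : V)) 0 :=
    ⟨_, rfl⟩
  have hvf : ∀ i, v (r i) = (f i : V) := by
    intro i
    rw [hv]
    exact r.injective.extend_apply _ _ i
  have hbo : Orthonormal ℝ (fun i => (f i : V)) :=
    f.orthonormal.comp_linearIsometry W.subtypeₗᵢ
  have hvo : Orthonormal ℝ ((Set.range r).domRestrict v) := by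
    have h1 : (Set.range r).domRestrict v =
        (fun i => (f i : V)) ∘ (Equiv.ofInjective r r.injective).symm := by
      funext x
      obtain ⟨x, i, rfl⟩ := x
      have h2 : (Equiv.ofInjective r r.injective).symm ⟨r i, i, rfl⟩ = i := by
        rw [Equiv.symm_apply_eq]
        rfl
      rw [Function.comp_apply, h2]
      exact hvf i
    rw [h1]
    exact hbo.comp _ (Equiv.ofInjective r r.injective).symm.injective
  obtain ⟨e', he'⟩ := hvo.exists_orthonormalBasis_extension_of_card_eq hcard
  refine ⟨e', r, r.injective, fun i => ?_, ?_⟩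
  · rw [he' (r i) ⟨i, rfl⟩, hvf i]
  intro j hj
  rw [Submodule.mem_orthogonal]
  intro u hu
  have h1 : ∀ i, inner ℝ (f i : V) (e' j) = 0 := by
    intro i
    have h2 : (f i : V) = e' (r i) := by
      rw [he' (r i) ⟨i, rfl⟩, hvf i]
    rw [h2]
    apply e'.orthonormal.2
    intro h3
    exact hj ⟨i, h3⟩
  have h2 : u = ∑ i, inner ℝ (f i) (⟨u, hu⟩ : W) • (f i : V) := by
    have h3 := f.sum_repr' (⟨u, hu⟩ : W)
    have h4 := congrArg (fun w : W => (w : V)) h3
    simp only [Submodule.coe_sum, Submodule.coe_smul] at h4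
    exact h4.symm
  rw [h2, sum_inner]
  apply Finset.sum_eq_zero
  intro i _
  rw [inner_smul_left, h1 i, mul_zero]

/-- The hypothesis: for some six-dimensional subspace `W` (with an orthonormal basis `f`) and six
skew forms `A k` which live on `W`, the curvature operator of `-R - ∑ skewCurv (A k)` is at
least `δ`, and `(-1)^3` times the Gauss–Bonnet–Chern integrand of the restriction of
`-∑ skewCurv (A k)` to `W` is nonnegative. -/
def SixPiece (δ : ℝ) (R : V → V → V → V → ℝ) : Prop :=
  ∃ (W : Submodule ℝ V) (f : OrthonormalBasis (Fin 3 × Bool) ℝ W) (A : Fin 6 → V → V → ℝ),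
    (∀ k, SkewForm (A k)) ∧ (∀ k, ∀ x ∈ Wᗮ, ∀ y, A k x y = 0) ∧
    0 ≤ (-1) ^ 3 * gbc f (fun u v w z : W => - ∑ k, skewCurv (A k) u v w z) ∧
    OpNonneg (negT (addT (addT R fun u v w z => δ * unitT u v w z)
      fun u v w z => ∑ k, skewCurv (A k) u v w z))

theorem six_piece (e : OrthonormalBasis (Fin m × Bool) ℝ V) {R : V → V → V → V → ℝ}
    (hR : AlgCurv R) {δ : ℝ} (hδ : 0 ≤ δ) (h : SixPiece δ R) :
    roundGB m δ ≤ (-1) ^ m * gbc e R := by
  obtain ⟨W, f, A, hA, hW, ho, hn⟩ := h
  obtain ⟨e', r, hr, hf, hr'⟩ := adapt e f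
  rw [Pool.Agent.W688.HD.bas m V e e' R hR]
  refine vec_bound e' hR (sumSkew_curv hA) hδ hn
    (S := ∑ k, qi (cm (fun i j => A k (e' i) (e' j)))) ?_ ?_
  · exact eL_sum_sc (m := m) (fun k i j => A k (e' i) (e' j))
  · refine six_posS (r := r) hr le_rfl (fun k i j => (hA k).anti _ _)
      (fun k i hi j => hW k _ (hr' i hi) _) ?_
    rw [gbc_eq] at ho
    have hπ := Real.pi_pos
    have hc : 0 < 1 / ((8 * Real.pi) ^ 3 * (Nat.factorial 3 : ℝ)) := by positivity
    have h1 := nonneg_of_mul_nonneg_right ho hc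
    have h2 : (fun _ : Fin 3 => cp f (negT fun u v w z : W => - ∑ k, skewCurv (A k) u v w z)) =
        fun _ : Fin 3 => (fun i j k l => ∑ a, scR (fun i j => A a (e' i) (e' j)) (r i) (r j)
          (r k) (r l) : T4 3) := by
      funext _ i j k l
      simp only [cp, negT, neg_neg, skewCurv, scR, hf]
    rw [h2] at h1
    exact h1

/-- superadditivity in dimension six -/
theorem six_super (e : OrthonormalBasis (Fin 3 × Bool) ℝ V) {R₁ : V → V → V → V → ℝ}
    (h₁ : AlgCurv R₁) (hn : OpNonneg (negT R₁)) {A : Fin 6 → V → V → ℝ}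
    (hA : ∀ k, SkewForm (A k)) :
    (-1) ^ 3 * gbc e R₁ + (-1) ^ 3 * gbc e (fun u v w z => - ∑ k, skewCurv (A k) u v w z) ≤
      (-1) ^ 3 * gbc e (addT R₁ fun u v w z => - ∑ k, skewCurv (A k) u v w z) := by
  rw [gbc_eq, gbc_eq, gbc_eq, ← mul_add]
  have hπ := Real.pi_pos
  have hc : 0 < 1 / ((8 * Real.pi) ^ 3 * (Nat.factorial 3 : ℝ)) := by positivity
  refine mul_le_mul_of_nonneg_left ?_ hc.le
  have h1 := gm_six (P := cp e (negT R₁)) (C := fun i j k l => ∑ a, scR
    (fun i j => A a (e i) (e j)) i j k l) (adm_cp e (neg_curv h₁) hn) (K := 6) le_rfl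
    (A := fun a => cm (fun i j => A a (e i) (e j)))
    (fun k i j => by simp only [cm, (hA k).anti (e i) (e j), Complex.ofReal_neg])
    (fun k => cj_cm _) (eL_sum_sc _)
  have e2 : cp e (negT fun u v w z => - ∑ k, skewCurv (A k) u v w z) =
      fun i j k l => ∑ a, scR (fun i j => A a (e i) (e j)) i j k l := by
    funext i j k l
    simp only [cp, negT, neg_neg, skewCurv, scR]
  have e3 : cp e (negT (addT R₁ fun u v w z => - ∑ k, skewCurv (A k) u v w z)) =
      fun i j k l => cp e (negT R₁) i j k l +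
        ∑ a, scR (fun i j => A a (e i) (e j)) i j k l := by
    funext i j k l
    simp only [cp, negT, addT, skewCurv, scR]
    ring
  rw [e2, e3]
  exact h1

/-- the criterion in dimension six -/
theorem six_iff (e : OrthonormalBasis (Fin 3 × Bool) ℝ V) {A : Fin 6 → V → V → ℝ}
    (hA : ∀ k, SkewForm (A k)) :
    (∀ R₁ : V → V → V → V → ℝ, AlgCurv R₁ → OpNonneg (negT R₁) →
      0 ≤ (-1) ^ 3 * gbc e (addT R₁ fun u v w z => - ∑ k, skewCurv (A k) u v w z)) ↔
    0 ≤ (-1) ^ 3 * gbc e (fun u v w z => - ∑ k, skewCurv (A k) u v w z) := by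
  constructor
  · intro h
    have h0 : AlgCurv (fun _ _ _ _ : V => (0 : ℝ)) :=
      ⟨by simp, by simp, by simp, by simp, by simp⟩
    have h1 := h (fun _ _ _ _ => 0) h0 (by
      intro n x y
      simp [negT])
    have h2 : (addT (fun _ _ _ _ : V => (0 : ℝ)) fun u v w z => - ∑ k, skewCurv (A k) u v w z) =
        fun u v w z => - ∑ k, skewCurv (A k) u v w z := by
      funext u v w z
      simp [addT]
    rwa [h2] at h1
  · intro h R₁ h₁ hn
    have h1 := six_super e h₁ hn hA
    have h2 : 0 ≤ (-1) ^ 3 * gbc e R₁ := by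
      have h3 := two_skew (δ := 0) e h₁ le_rfl ⟨fun _ _ => 0, fun _ _ => 0,
        ⟨by simp, by simp, by simp⟩, ⟨by simp, by simp, by simp⟩, by
          have h4 : negT (addT (addT (addT R₁ fun x y z w => 0 * unitT x y z w)
              (skewCurv fun _ _ => 0)) (skewCurv fun _ _ => 0)) = negT R₁ := by
            funext x y z w
            simp [negT, addT, skewCurv]
          rw [h4]
          exact hn⟩
      exact (roundGB_nonneg le_rfl).trans h3
    linarith

theorem field_six {M : Type} [MeasurableSpace M] (μ : MeasureTheory.Measure M)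
    (K : CurvField m M) (h : ∀ p, SixPiece 0 (K.R p)) :
    0 ≤ (-1) ^ m * ∫ p, K.gb p ∂μ := by
  rw [← MeasureTheory.integral_const_mul]
  refine MeasureTheory.integral_nonneg fun p => ?_
  exact (roundGB_nonneg le_rfl).trans (six_piece (K.e p) (K.curv p) le_rfl (h p))

theorem field_six' {M : Type} [MeasurableSpace M] (μ : MeasureTheory.Measure M)
    [MeasureTheory.IsFiniteMeasure μ] (K : CurvField m M) (hi : MeasureTheory.Integrable K.gb μ)
    {δ : ℝ} (hδ : 0 ≤ δ) (h : ∀ p, SixPiece δ (K.R p)) :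
    roundGB m δ * μ.real Set.univ ≤ (-1) ^ m * ∫ p, K.gb p ∂μ := by
  rw [← MeasureTheory.integral_const_mul]
  have h1 : roundGB m δ * μ.real Set.univ = ∫ _, roundGB m δ ∂μ := by
    rw [MeasureTheory.integral_const, smul_eq_mul, mul_comm]
  rw [h1]
  refine MeasureTheory.integral_mono (MeasureTheory.integrable_const _) (hi.const_mul _) fun p => ?_
  exact six_piece (K.e p) (K.curv p) hδ (h p)

theorem field_four {M : Type} [MeasurableSpace M] (μ : MeasureTheory.Measure M)
    (K : CurvField m M) (h : ∀ p, SpanPlus 4 0 (K.R p)) :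
    0 ≤ (-1) ^ m * ∫ p, K.gb p ∂μ := by
  rw [← MeasureTheory.integral_const_mul]
  refine MeasureTheory.integral_nonneg fun p => ?_
  exact (roundGB_nonneg le_rfl).trans (span_four (K.e p) (K.curv p) le_rfl (h p))

theorem field_four' {M : Type} [MeasurableSpace M] (μ : MeasureTheory.Measure M)
    [MeasureTheory.IsFiniteMeasure μ] (K : CurvField m M) (hi : MeasureTheory.Integrable K.gb μ)
    {δ : ℝ} (hδ : 0 ≤ δ) (h : ∀ p, SpanPlus 4 δ (K.R p)) :
    roundGB m δ * μ.real Set.univ ≤ (-1) ^ m * ∫ p, K.gb p ∂μ := by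
  rw [← MeasureTheory.integral_const_mul]
  have h1 : roundGB m δ * μ.real Set.univ = ∫ _, roundGB m δ ∂μ := by
    rw [MeasureTheory.integral_const, smul_eq_mul, mul_comm]
  rw [h1]
  refine MeasureTheory.integral_mono (MeasureTheory.integrable_const _) (hi.const_mul _) fun p => ?_
  exact span_four (K.e p) (K.curv p) hδ (h p)

end vec

end Pool.Agent.U486.HF
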