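import Pool.Agent.U486.HF.Six
import Pool.Agent.Y195.HF.Posi

/-!
# The positive side for six skew forms
-/

set_option autoImplicit false

namespace Pool.Agent.U486.HF

open Finset Pool.Agent.Y195.HF Pool.Agent.W666.GB
open Pool.Agent.W669.HD hiding phi kap

variable {m : ℕ} {V : Type} [NormedAddCommGroup V] [InnerProductSpace ℝ V]

/-- The hypothesis: for some six-dimensional subspace `W` (with an orthonormal basis `f`) and six
skew forms `A k` which live on `W`, the curvature operator of `R - ∑ skewCurv (A k)` is at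
least `δ`, and the Gauss–Bonnet–Chern integrand of the restriction of `∑ skewCurv (A k)` to `W`
is nonnegative. -/
def SixPiecePos (δ : ℝ) (R : V → V → V → V → ℝ) : Prop :=
  ∃ (W : Submodule ℝ V) (f : OrthonormalBasis (Fin 3 × Bool) ℝ W) (A : Fin 6 → V → V → ℝ),
    (∀ k, SkewForm (A k)) ∧ (∀ k, ∀ x ∈ Wᗮ, ∀ y, A k x y = 0) ∧
    0 ≤ gbc f (fun u v w z : W => ∑ k, skewCurv (A k) u v w z) ∧
    OpNonneg (addT (addT R fun u v w z => -δ * unitT u v w z)
      fun u v w z => - ∑ k, skewCurv (A k) u v w z)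

theorem sixPiecePos_neg {δ : ℝ} {R : V → V → V → V → ℝ} (h : SixPiecePos δ R) :
    SixPiece δ (negT R) := by
  obtain ⟨W, f, A, hA, hW, ho, hn⟩ := h
  refine ⟨W, f, A, hA, hW, ?_, ?_⟩
  · have h1 := gbc_negT f (fun u v w z : W => ∑ k, skewCurv (A k) u v w z)
    have h2 : negT (fun u v w z : W => ∑ k, skewCurv (A k) u v w z) =
        fun u v w z : W => - ∑ k, skewCurv (A k) u v w z := rfl
    rw [h2] at h1
    rw [h1]
    exact ho
  · have h3 : negT (addT (addT (negT R) fun u v w z => δ * unitT u v w z)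
        fun u v w z => ∑ k, skewCurv (A k) u v w z) =
        addT (addT R fun u v w z => -δ * unitT u v w z)
          fun u v w z => - ∑ k, skewCurv (A k) u v w z := by
      funext u v w z
      simp only [negT, addT]
      ring
    rw [h3]
    exact hn

theorem six_piece_pos (e : OrthonormalBasis (Fin m × Bool) ℝ V) {R : V → V → V → V → ℝ}
    (hR : AlgCurv R) {δ : ℝ} (hδ : 0 ≤ δ) (h : SixPiecePos δ R) :
    roundGB m δ ≤ gbc e R := by
  rw [← gbc_negT e R]
  exact six_piece e (neg_curv hR) hδ (sixPiecePos_neg h)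

/-- superadditivity in dimension six -/
theorem six_super_pos (e : OrthonormalBasis (Fin 3 × Bool) ℝ V) {R₁ : V → V → V → V → ℝ}
    (h₁ : AlgCurv R₁) (hn : OpNonneg R₁) {A : Fin 6 → V → V → ℝ}
    (hA : ∀ k, SkewForm (A k)) :
    gbc e R₁ + gbc e (fun u v w z => ∑ k, skewCurv (A k) u v w z) ≤
      gbc e (addT R₁ fun u v w z => ∑ k, skewCurv (A k) u v w z) := by
  have h2 : negT (negT R₁) = R₁ := by
    funext x y z w
    simp only [negT, neg_neg]
  have h := six_super e (neg_curv h₁) (by rw [h2]; exact hn) hA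
  have e1 := gbc_negT e R₁
  have e2 := gbc_negT e (fun u v w z => ∑ k, skewCurv (A k) u v w z)
  have e3 := gbc_negT e (addT R₁ fun u v w z => ∑ k, skewCurv (A k) u v w z)
  have h3 : negT (fun u v w z : V => ∑ k, skewCurv (A k) u v w z) =
      fun u v w z : V => - ∑ k, skewCurv (A k) u v w z := rfl
  have h4 : negT (addT R₁ fun u v w z => ∑ k, skewCurv (A k) u v w z) =
      addT (negT R₁) fun u v w z => - ∑ k, skewCurv (A k) u v w z := by
    funext u v w z
    simp only [negT, addT]
    ring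
  rw [h3] at e2
  rw [h4] at e3
  rw [e1, e2, e3] at h
  exact h

/-- the criterion in dimension six -/
theorem six_iff_pos (e : OrthonormalBasis (Fin 3 × Bool) ℝ V) {A : Fin 6 → V → V → ℝ}
    (hA : ∀ k, SkewForm (A k)) :
    (∀ R₁ : V → V → V → V → ℝ, AlgCurv R₁ → OpNonneg R₁ →
      0 ≤ gbc e (addT R₁ fun u v w z => ∑ k, skewCurv (A k) u v w z)) ↔
    0 ≤ gbc e (fun u v w z => ∑ k, skewCurv (A k) u v w z) := by
  have e2 := gbc_negT e (fun u v w z => ∑ k, skewCurv (A k) u v w z)
  have h3 : negT (fun u v w z : V => ∑ k, skewCurv (A k) u v w z) =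
      fun u v w z : V => - ∑ k, skewCurv (A k) u v w z := rfl
  rw [h3] at e2
  have h := six_iff e hA
  rw [e2] at h
  rw [← h]
  constructor
  · intro h5 R₁ h₁ hn
    have e3 := gbc_negT e (addT (negT R₁) fun u v w z => ∑ k, skewCurv (A k) u v w z)
    have h4 : negT (addT (negT R₁) fun u v w z => ∑ k, skewCurv (A k) u v w z) =
        addT R₁ fun u v w z => - ∑ k, skewCurv (A k) u v w z := by
      funext u v w z
      simp only [negT, addT]
      ring
    rw [h4] at e3
    rw [e3]
    exact h5 _ (neg_curv h₁) hn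
  · intro h5 R₁ h₁ hn
    have e3 := gbc_negT e (addT R₁ fun u v w z => ∑ k, skewCurv (A k) u v w z)
    have h4 : negT (addT R₁ fun u v w z => ∑ k, skewCurv (A k) u v w z) =
        addT (negT R₁) fun u v w z => - ∑ k, skewCurv (A k) u v w z := by
      funext u v w z
      simp only [negT, addT]
      ring
    have h6 : negT (negT R₁) = R₁ := by
      funext x y z w
      simp only [negT, neg_neg]
    rw [h4] at e3
    rw [← e3]
    exact h5 _ (neg_curv h₁) (by rw [h6]; exact hn)

theorem field_six_pos {M : Type} [MeasurableSpace M] (μ : MeasureTheory.Measure M)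
    (K : CurvField m M) (δ : M → ℝ) (h : ∀ p, 0 ≤ δ p ∧ SixPiecePos (δ p) (K.R p)) :
    0 ≤ ∫ p, K.gb p ∂μ ∧
      (MeasureTheory.Integrable K.gb μ → μ {p | 0 < δ p} ≠ 0 → 0 < ∫ p, K.gb p ∂μ) := by
  have h1 : ∀ p, roundGB m (δ p) ≤ K.gb p := fun p =>
    six_piece_pos (K.e p) (K.curv p) (h p).1 (h p).2
  have h0 : ∀ p, 0 ≤ K.gb p := fun p => (roundGB_nonneg (h p).1).trans (h1 p)
  refine ⟨MeasureTheory.integral_nonneg h0, fun hi hμ => ?_⟩
  rw [MeasureTheory.integral_pos_iff_support_of_nonneg h0 hi]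
  refine lt_of_lt_of_le (pos_iff_ne_zero.mpr hμ) (MeasureTheory.measure_mono fun p hp => ?_)
  have h2 := roundGB_pos (m := m) (show 0 < δ p from hp)
  exact (h2.trans_le (h1 p)).ne'

end Pool.Agent.U486.HF
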