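import Pool.Agent.U486.HF.Four

/-!
# All powers of the sum of the invariants of skew forms in the span of four forms of rank two
-/

set_option autoImplicit false

namespace Pool.Agent.U486.HF

open Finset Pool.Agent.Y195.HF

variable {m : ℕ}

/-- Elements all of whose powers are nonnegative on the invariant elements of the cones. -/
def PosS (S : Zc (I2 m → ℂ)) : Prop :=
  ∀ (N n : ℕ) (T : Zc (I2 m → ℂ)), Inv T → T ∈ cone m n → N + n = m → 0 ≤ (el' T (S ^ N)).re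

theorem pos_zero {T : Zc (I2 m → ℂ)} {n : ℕ} (hTc : T ∈ cone m n) (hN : 0 + n = m)
    (S : Zc (I2 m → ℂ)) : 0 ≤ (el' T (S ^ 0)).re := by
  rw [zero_add] at hN
  subst hN
  obtain ⟨r, hr, hr'⟩ := cone_LF hTc
  rw [el'_apply, pow_zero, one_mul, hr', Complex.ofReal_re]
  exact hr

theorem ff_zero (s t : Bool) : ff s t (0 : Mt m) = 0 := by
  simp [ff]

theorem qi_zero : qi (0 : Mt m) = 0 := by
  simp [qi, ff_zero]

theorem pos_one {K : ℕ} {A : Fin K → Mt m} (hA : ∀ k i j, A k j i = - A k i j)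
    (hAr : ∀ k, cj (A k) = A k) {T : Zc (I2 m → ℂ)} (hT : Inv T) {n : ℕ} (hTc : T ∈ cone m n)
    (hN : 1 + n = m) : 0 ≤ (el' T ((∑ k, qi (A k)) ^ 1)).re := by
  rw [pow_one, map_sum, Complex.re_sum]
  refine Finset.sum_nonneg fun k _ => ?_
  have h := pos_main (hA k) (B := 0) (fun i j => by simp) (hAr k)
    (by funext i j; simp [cj]) hT hTc hN
  rwa [qi_zero, add_zero, pow_one, ← el'_apply] at h

/-- `ff` as a linear map -/
noncomputable def ffl (s t : Bool) : Mt m →ₗ[ℂ] Zc (I2 m → ℂ) where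
  toFun A := ff s t A
  map_add' := ff_add s t
  map_smul' := ff_smul s t

/-- the linear form of a triple is linear in the matrix -/
noncomputable def yyl (p : Fin 3 → ℝ) : Mt m →ₗ[ℂ] Zc (I2 m → ℂ) :=
  (((p 0 : ℂ) + Complex.I * p 1) / 2) • ffl false false +
    (((p 0 : ℂ) - Complex.I * p 1) / 2) • ffl true true + (Complex.I * p 2) • ffl false true

theorem yyl_apply (p : Fin 3 → ℝ) (A : Mt m) : yyl p A = yy p A := rfl

/-- unit triples -/
def ea (α : Fin 3) : Fin 3 → ℝ := fun β => if β = α then 1 else 0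

theorem yy_comb (p : Fin 3 → ℝ) (A : Mt m) : ∑ α, p α • yy (ea α) A = yy p A := by
  rw [Fin.sum_univ_three, yy, yy, yy, yy, ← vv_comb (p 0) (p 1) (p 2) A]
  simp [ea]

theorem yy_qi (A : Mt m) : ∑ α, yy (ea α) A ^ 2 = qi A := by
  rw [Fin.sum_univ_three, yy, yy, yy, ← vv_sq A]
  simp [ea]

/-- combinations of matrices -/
noncomputable def cmb {K : ℕ} (c : Fin K → Fin 4 → ℝ) (B : Fin 4 → Mt m) (k : Fin K) : Mt m :=
  ∑ l, (c k l : ℂ) • B l

theorem yy_cmb {K : ℕ} (c : Fin K → Fin 4 → ℝ) (B : Fin 4 → Mt m) (k : Fin K) (p : Fin 3 → ℝ) :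
    yy p (cmb c B k) = ∑ l, c k l • yy p (B l) := by
  rw [← yyl_apply, cmb, map_sum]
  refine Finset.sum_congr rfl fun l _ => ?_
  rw [map_smul, yyl_apply, Complex.coe_smul]

theorem sum_yy {K : ℕ} (c : Fin K → Fin 4 → ℝ) (B : Fin 4 → Mt m) (ξ : Fin K × Fin 3 → ℝ) :
    ∑ i : Fin K × Fin 3, ξ i • yy (ea i.2) (cmb c B i.1) =
      ∑ l, yy (fun α => ∑ k, c k l * ξ (k, α)) (B l) := by
  rw [Fintype.sum_prod_type]
  have h1 : ∀ k, ∑ α, ξ (k, α) • yy (ea α) (cmb c B k) =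
      ∑ l, c k l • yy (fun α => ξ (k, α)) (B l) := by
    intro k
    rw [yy_comb (fun α => ξ (k, α)), yy_cmb]
  rw [Finset.sum_congr rfl fun k _ => h1 k, Finset.sum_comm]
  refine Finset.sum_congr rfl fun l _ => ?_
  rw [← yy_comb (fun α => ∑ k, c k l * ξ (k, α))]
  simp only [Finset.sum_smul]
  rw [Finset.sum_comm]
  refine Finset.sum_congr rfl fun k _ => ?_
  rw [← yy_comb (fun α => ξ (k, α)), Finset.smul_sum]
  refine Finset.sum_congr rfl fun α _ => ?_
  rw [smul_smul]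

theorem claim4 {B : Fin 4 → Mt m} {T : Zc (I2 m → ℂ)} (hB : ∀ j, Blk (B j)) {n : ℕ}
    (hTc : T ∈ cone m n) (hN : 4 + n = m) (Q : Fin 4 → Fin 3 → ℝ) : ∃ r : ℝ, 0 ≤ r ∧
      el' T ((yy (Q 0) (B 0) + yy (Q 1) (B 1) + yy (Q 2) (B 2) + yy (Q 3) (B 3)) ^ 8) =
        (r : ℂ) := by
  have h1 : (∏ j : Fin 4, (ff false false (B j) * ff true true (cj (B j)))) * T ∈ cone m m := by
    have := cone_mul (cone_gen' (m := m) B) hTc
    rwa [hN] at this
  obtain ⟨r, hr, hr'⟩ := cone_LF h1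
  have hd : ∀ j, 0 ≤ dd (Q j) (Q j) := fun j => by
    unfold dd
    nlinarith [mul_self_nonneg (Q j 0), mul_self_nonneg (Q j 1), mul_self_nonneg (Q j 2)]
  refine ⟨2520 / 16 * (dd (Q 0) (Q 0) * dd (Q 1) (Q 1) * dd (Q 2) (Q 2) * dd (Q 3) (Q 3)) * r, ?_,
    ?_⟩
  · have := hd 0
    have := hd 1
    have := hd 2
    have := hd 3
    positivity
  · rw [pow_eight _ _ _ _ (yy_cube (hB 0) _) (yy_cube (hB 1) _) (yy_cube (hB 2) _)
      (yy_cube (hB 3) _)]
    have h2 : 2520 * yy (Q 0) (B 0) ^ 2 * yy (Q 1) (B 1) ^ 2 * yy (Q 2) (B 2) ^ 2 *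
        yy (Q 3) (B 3) ^ 2 = ((2520 : ℕ) : Zc (I2 m → ℂ)) * (yy (Q 0) (B 0) ^ 2 *
          yy (Q 1) (B 1) ^ 2 * yy (Q 2) (B 2) ^ 2 * yy (Q 3) (B 3) ^ 2) := by
      push_cast
      ring
    rw [h2, el_num, yy_sq (hB 0), yy_sq (hB 1), yy_sq (hB 2), yy_sq (hB 3), smul_mul_smul_comm,
      smul_mul_smul_comm, smul_mul_smul_comm, map_smul, smul_eq_mul]
    have h3 : el' T (wq (B 0) * wq (B 1) * wq (B 2) * wq (B 3)) = (r : ℂ) := by
      rw [← hr', el'_apply]
      congr 2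
      rw [Fin.prod_univ_four, (hB 0).real, (hB 1).real, (hB 2).real, (hB 3).real]
      simp only [wq]
    rw [h3]
    push_cast
    ring

theorem four_posS {B : Fin 4 → Mt m} (hB : ∀ j, Blk (B j)) {K : ℕ} (hK : K ≤ 6)
    (c : Fin K → Fin 4 → ℝ) : PosS (∑ k, qi (cmb c B k)) := by
  intro N n T hT hTc hN
  have hsk : ∀ k i j, cmb c B k j i = - cmb c B k i j := by
    intro k i j
    simp only [cmb, Finset.sum_apply, Pi.smul_apply, smul_eq_mul, (hB _).skew i j, mul_neg,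
      Finset.sum_neg_distrib]
  have hre : ∀ k, cj (cmb c B k) = cmb c B k := by
    intro k
    funext i j
    have h1 : ∀ l, (starRingEnd ℂ) (B l i j) = B l i j := fun l =>
      congrFun (congrFun (hB l).real i) j
    simp only [cj, cmb, Finset.sum_apply, Pi.smul_apply, smul_eq_mul, map_sum, map_mul,
      Complex.conj_ofReal, h1]
  -- the generic step
  have hgen : (∀ Q : Fin 4 → Fin 3 → ℝ, ∃ r : ℝ, 0 ≤ r ∧
      el' T ((yy (Q 0) (B 0) + yy (Q 1) (B 1) + yy (Q 2) (B 2) + yy (Q 3) (B 3)) ^ (2 * N)) =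
        (r : ℂ)) → 0 ≤ (el' T ((∑ k, qi (cmb c B k)) ^ N)).re := by
    intro hQ
    have h := gauss_pos (fun i : Fin K × Fin 3 => yy (ea i.2) (cmb c B i.1)) T (LR m) N
      (fun ξ => by
        rw [sum_yy, LR_apply, ← el'_apply, Fin.sum_univ_four]
        obtain ⟨r, hr, hr'⟩ := hQ (fun l α => ∑ k, c k l * ξ (k, α))
        rw [hr', Complex.ofReal_re]
        exact hr)
    rw [LR_apply, ← el'_apply, Fintype.sum_prod_type] at h
    have h2 : ∀ k, ∑ α, yy (ea α) (cmb c B k) ^ 2 = qi (cmb c B k) := fun k => yy_qi _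
    simp only [h2] at h
    exact h
  rcases Nat.lt_or_ge N 5 with hlt | hge
  · interval_cases N
    · exact pos_zero hTc hN _
    · exact pos_one hsk hre hT hTc hN
    · exact six_sq hK hsk hre hT hTc hN
    · exact hgen fun Q => claim3 hB hT hTc hN Q
    · exact hgen fun Q => claim4 hB hTc hN Q
  · refine hgen fun Q => ⟨0, le_rfl, ?_⟩
    have h1 : 2 * N = 9 + (2 * N - 9) := by omega
    rw [h1, pow_add, pow_nine _ _ _ _ (yy_cube (hB 0) _) (yy_cube (hB 1) _) (yy_cube (hB 2) _)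
      (yy_cube (hB 3) _), zero_mul, map_zero, Complex.ofReal_zero]

end Pool.Agent.U486.HF
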